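import Pool.Agent.Helper26.QS.Defs
import Pool.Agent.Helper68.QA.Core

/-!
# QS-Core: the elementary ending (helper68, Helper68/QA/Core.lean)
-/

set_option autoImplicit false

namespace Pool.Agent.Helper26.QS

open Finset MeasureTheory
open Pool.Agent.Helper68.CO2 (lam)

theorem core (a : ℕ) : ∃ (C : ℝ) (M0 : ℕ), 1 ≤ C ∧ ∀ (M : ℕ) (Ya Yb η : ℝ), M0 ≤ M → 1 ≤ Ya →
    Ya * M * C ≤ Yb → Yb * C ≤ (M : ℝ) ^ (2 ^ a) → 0 ≤ η → η * C ≤ 1 →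
    ¬ (∀ n : ℕ, M ≤ 2 * n → n ≤ M → ∀ Y : ℝ, Ya ≤ Y → Y ≤ Yb →
      volume {y : ℝ | y ∈ Set.Icc Y (2 * Y) ∧ lam ⌊(n : ℝ) * y⌋₊ ≠ lam n * lam ⌊y⌋₊} ≤
        ENNReal.ofReal (η * Y)) := by
  obtain ⟨C, M0, h1, h2⟩ := Pool.Agent.Helper68.QA.core a
  refine ⟨C, M0, h1, fun M Ya Yb η a1 a2 a3 a4 _ a5 hc => ?_⟩
  exact h2 M Ya Yb η a1 a2 a3 a4 a5 hc

end Pool.Agent.Helper26.QS
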