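import Pool.Agent.Helper26.QS.Defs

/-!
# QS-Par: the parameters

PROOF.  `c = (ε - 10 δ) / 100`.  First term: `128 Y J ^ 2 (3 / (4 Y) + (1 + log N) / N) / R`; `3 / (4 Y) ≤ 1 / N`, `Y / N ≤ T N ^ (δ + 3 c)`,
`J ^ 2 ≤ T ^ 2 (Y / N ^ (1 - δ)) ^ 4 ≤ T ^ 6 N ^ (8 δ + 12 c)`: at most `C' N ^ (9 δ + 15 c) (2 + log N) / N ^ (9 δ + 50 c)`.  Second term:
`32 R E Y / N ^ 2 ≤ C' N ^ (9 δ + 50 c + 1 - ε + c + 1 + δ + 3 c - 2) = C' N ^ (54 c - 100 c)`.
-/

set_option autoImplicit false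

namespace Pool.Agent.Helper26.QS

open Finset MeasureTheory
open Pool.Agent.Helper68.CO2 (lam)

theorem par (δ ε C T : ℝ) (hδ : 0 ≤ δ) (h : 10 * δ < ε) (hε1 : ε ≤ 1) (hC : 1 ≤ C) (hT : 1 ≤ T) :
    ∃ N0 : ℕ, ∀ N : ℕ, N0 ≤ N → ∀ (Y R E : ℝ) (J : ℕ), (N : ℝ) ≤ Y →
    Y ≤ T * (N : ℝ) ^ (1 + δ + 3 * ((ε - 10 * δ) / 100)) →
    (N : ℝ) ^ (9 * δ + 50 * ((ε - 10 * δ) / 100)) ≤ R →
    R ≤ 2 * (N : ℝ) ^ (9 * δ + 50 * ((ε - 10 * δ) / 100)) → 0 ≤ E →
    E ≤ T * (N : ℝ) ^ (1 - ε + (ε - 10 * δ) / 100) → (J : ℝ) ≤ T * (Y / (N : ℝ) ^ (1 - δ)) ^ 2 →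
    1 / (2 * Y) * (256 * Y ^ 2 * (J : ℝ) ^ 2 * (3 / (4 * Y) + (1 + Real.log N) / N) / R +
      64 * R * E * Y ^ 2 / (N : ℝ) ^ 2) ≤ 1 / C := by
  obtain ⟨c, hc⟩ : ∃ c, c = (ε - 10 * δ) / 100 := ⟨_, rfl⟩
  rw [← hc]
  have hc0 : 0 < c := by rw [hc]; linarith
  have hεc : ε = 10 * δ + 100 * c := by rw [hc]; ring
  have hT0 : 0 < T := by linarith
  have hC0 : 0 < C := by linarith
  obtain ⟨K, hK⟩ : ∃ K, K = 128 * T ^ 7 * (2 + 1 / c) + 64 * T ^ 2 := ⟨_, rfl⟩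
  have hK0 : 0 < K := by rw [hK]; positivity
  have hev : ∀ᶠ N : ℕ in Filter.atTop, K * C ≤ (N : ℝ) ^ (34 * c) :=
    ((tendsto_rpow_atTop (by positivity : 0 < 34 * c)).comp
      tendsto_natCast_atTop_atTop).eventually_ge_atTop _
  obtain ⟨N1, hN1⟩ := Filter.eventually_atTop.1 hev
  refine ⟨max 1 N1, fun N hN Y R E J hNY hY hR1 hR2 hE0 hE hJ => ?_⟩
  have hKC := hN1 N ((le_max_right _ _).trans hN)
  have hn1 : (1 : ℝ) ≤ N := by exact_mod_cast (le_max_left _ _).trans hN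
  obtain ⟨n, hn⟩ : ∃ n : ℝ, n = (N : ℝ) := ⟨_, rfl⟩
  rw [← hn] at hNY hY hR1 hR2 hE hJ hKC hn1 ⊢
  have hn0 : 0 < n := by linarith
  have hY0 : 0 < Y := by linarith
  have hR0 : 0 < R := lt_of_lt_of_le (Real.rpow_pos_of_pos hn0 _) hR1
  have hpos : ∀ a : ℝ, 0 < n ^ a := fun a => Real.rpow_pos_of_pos hn0 a
  have h1c : 1 ≤ n ^ c := Real.one_le_rpow hn1 hc0.le
  have hlog : Real.log n ≤ n ^ c / c := Real.log_le_rpow_div hn0.le hc0
  have hlog0 : 0 ≤ Real.log n := Real.log_nonneg hn1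
  -- the bracket
  have hA : 3 / (4 * Y) + (1 + Real.log n) / n ≤ (2 + 1 / c) * n ^ c / n := by
    have e1 : 3 / (4 * Y) ≤ 1 / n := by
      rw [div_le_div_iff₀ (by positivity) hn0]
      linarith
    have e2 : (1 + Real.log n) / n ≤ (1 + n ^ c / c) / n := by
      apply div_le_div_of_nonneg_right _ hn0.le
      linarith
    have e3 : 1 / n + (1 + n ^ c / c) / n = (2 + n ^ c / c) / n := by ring
    have e4 : (2 + n ^ c / c) / n ≤ (2 + 1 / c) * n ^ c / n := by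
      apply div_le_div_of_nonneg_right _ hn0.le
      have : (2 + 1 / c) * n ^ c = 2 * n ^ c + n ^ c / c := by ring
      rw [this]
      linarith
    linarith
  have hA0 : 0 ≤ 3 / (4 * Y) + (1 + Real.log n) / n := by positivity
  -- the square of J
  have hYn : Y / n ^ (1 - δ) ≤ T * n ^ (2 * δ + 3 * c) := by
    rw [div_le_iff₀ (hpos _), mul_assoc, ← Real.rpow_add hn0]
    refine hY.trans (le_of_eq ?_)
    congr 2
    ring
  have hYn0 : 0 ≤ Y / n ^ (1 - δ) := div_nonneg hY0.le (hpos _).le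
  have hJ1 : (J : ℝ) ≤ T * (T * n ^ (2 * δ + 3 * c)) ^ 2 :=
    hJ.trans (mul_le_mul_of_nonneg_left (pow_le_pow_left₀ hYn0 hYn 2) hT0.le)
  have hJ2 : (J : ℝ) ^ 2 ≤ T ^ 6 * n ^ (8 * δ + 12 * c) := by
    have e1 := pow_le_pow_left₀ (Nat.cast_nonneg J) hJ1 2
    refine e1.trans (le_of_eq ?_)
    have e2 : n ^ (8 * δ + 12 * c) = (n ^ (2 * δ + 3 * c)) ^ 4 := by
      rw [← Real.rpow_natCast, ← Real.rpow_mul hn0.le]
      congr 1
      push_cast
      ring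
    rw [e2]
    ring
  -- first term
  have hF : 128 * Y * (J : ℝ) ^ 2 * (3 / (4 * Y) + (1 + Real.log n) / n) / R ≤
      128 * T ^ 7 * (2 + 1 / c) * n ^ (-(34 * c)) := by
    have e1 : 128 * Y * (J : ℝ) ^ 2 * (3 / (4 * Y) + (1 + Real.log n) / n) / R ≤
        128 * (T * n ^ (1 + δ + 3 * c)) * (T ^ 6 * n ^ (8 * δ + 12 * c)) *
          ((2 + 1 / c) * n ^ c / n) / n ^ (9 * δ + 50 * c) := by
      apply div_le_div₀
      · have := hpos (1 + δ + 3 * c)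
        have := hpos (8 * δ + 12 * c)
        have := hpos c
        positivity
      · apply mul_le_mul _ hA hA0
        · have := hpos (1 + δ + 3 * c)
          have := hpos (8 * δ + 12 * c)
          positivity
        · apply mul_le_mul _ hJ2 (by positivity)
          · have := hpos (1 + δ + 3 * c)
            positivity
          · linarith
      · exact hpos _
      · exact hR1
    refine e1.trans (le_of_eq ?_)
    have e2 : n ^ (1 + δ + 3 * c) * n ^ (8 * δ + 12 * c) * n ^ c =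
        n ^ (-(34 * c)) * n * n ^ (9 * δ + 50 * c) := by
      nth_rewrite 5 [← Real.rpow_one n]
      rw [← Real.rpow_add hn0, ← Real.rpow_add hn0, ← Real.rpow_add hn0, ← Real.rpow_add hn0]
      congr 1
      ring
    rw [div_eq_iff (hpos _).ne']
    have e3 : 128 * (T * n ^ (1 + δ + 3 * c)) * (T ^ 6 * n ^ (8 * δ + 12 * c)) *
          ((2 + 1 / c) * n ^ c / n) =
        128 * T ^ 7 * (2 + 1 / c) * (n ^ (1 + δ + 3 * c) * n ^ (8 * δ + 12 * c) * n ^ c) / n := by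
      ring
    rw [e3, e2]
    field_simp
  -- second term
  have hS : 32 * R * E * Y / n ^ 2 ≤ 64 * T ^ 2 * n ^ (-(34 * c)) := by
    have e1 : 32 * R * E * Y / n ^ 2 ≤
        32 * (2 * n ^ (9 * δ + 50 * c)) * (T * n ^ (1 - ε + c)) * (T * n ^ (1 + δ + 3 * c)) /
          n ^ 2 := by
      apply div_le_div_of_nonneg_right _ (by positivity)
      have a1 := hpos (9 * δ + 50 * c)
      have a2 := hpos (1 - ε + c)
      have a3 := hpos (1 + δ + 3 * c)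
      gcongr
    refine e1.trans ?_
    have e2 : n ^ (9 * δ + 50 * c) * n ^ (1 - ε + c) * n ^ (1 + δ + 3 * c) =
        n ^ (-(46 * c)) * n ^ 2 := by
      rw [← Real.rpow_natCast n 2, ← Real.rpow_add hn0, ← Real.rpow_add hn0,
        ← Real.rpow_add hn0]
      congr 1
      rw [hεc]
      push_cast
      ring
    have e3 : 32 * (2 * n ^ (9 * δ + 50 * c)) * (T * n ^ (1 - ε + c)) *
        (T * n ^ (1 + δ + 3 * c)) / n ^ 2 =
        64 * T ^ 2 * (n ^ (9 * δ + 50 * c) * n ^ (1 - ε + c) * n ^ (1 + δ + 3 * c)) / n ^ 2 := by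
      ring
    rw [e3, e2]
    have e4 : 64 * T ^ 2 * (n ^ (-(46 * c)) * n ^ 2) / n ^ 2 = 64 * T ^ 2 * n ^ (-(46 * c)) := by
      field_simp
    rw [e4]
    apply mul_le_mul_of_nonneg_left _ (by positivity)
    exact Real.rpow_le_rpow_of_exponent_le hn1 (by linarith)
  have hsplit : 1 / (2 * Y) * (256 * Y ^ 2 * (J : ℝ) ^ 2 *
      (3 / (4 * Y) + (1 + Real.log n) / n) / R + 64 * R * E * Y ^ 2 / n ^ 2) =
      128 * Y * (J : ℝ) ^ 2 * (3 / (4 * Y) + (1 + Real.log n) / n) / R +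
        32 * R * E * Y / n ^ 2 := by
    generalize 3 / (4 * Y) + (1 + Real.log n) / n = A
    field_simp
    ring
  rw [hsplit]
  have hfin : K * n ^ (-(34 * c)) ≤ 1 / C := by
    rw [Real.rpow_neg hn0.le, le_div_iff₀ hC0]
    have := hpos (34 * c)
    have e1 : K * (n ^ (34 * c))⁻¹ * C = K * C / n ^ (34 * c) := by
      rw [div_eq_mul_inv]
      ring
    rw [e1, div_le_one this]
    exact hKC
  calc _ ≤ 128 * T ^ 7 * (2 + 1 / c) * n ^ (-(34 * c)) + 64 * T ^ 2 * n ^ (-(34 * c)) :=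
        add_le_add hF hS
    _ = K * n ^ (-(34 * c)) := by rw [hK]; ring
    _ ≤ 1 / C := hfin

end Pool.Agent.Helper26.QS
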