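import Pool.Agent.Helper26.QS.Cover

/-!
# QS-Step: multiplication by `n`

PROOF.  `Y = n Y' / 2`, `l = H Y / (16 N ^ 2) = H n Y' / (32 N ^ 2) ≥ n / 3` and `≤ n Y' / 32`.  For `y' ∈ [Y', 2 Y']` put
`y = n y' - n - l ∈ [Y, 4 Y]`.  If `y ∉ Bad` then some `m ∈ B` satisfies the hypotheses of `cover` (`Z = Z m`), so `lam` is constant on
the integers of `(y + l, y + 4 l] ⊇ (n y' - n, n y']`, which contains `n ⌊y'⌋` and `⌊n y'⌋`; `lam (n ⌊y'⌋) = lam n * lam ⌊y'⌋`.  So the set is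
contained in the preimage of `Bad` under `y' ↦ n y' - n - l`, of volume `volume Bad / n`.
-/

set_option autoImplicit false

namespace Pool.Agent.Helper26.QS

open Finset MeasureTheory
open Pool.Agent.Helper68.CO2 (lam)

theorem step_vol {N n : ℕ} (hN : 0 < N) (hn : 0 < n) {B : Finset ℕ}
    (hB : ∀ m ∈ B, N < m ∧ m ≤ 2 * N) {A Z : ℕ → Finset ℕ} {H Y' : ℝ} (hH : 0 < H) (hHN : H ≤ N)
    (hY4 : 4 ≤ Y') (h11 : 11 * (N : ℝ) ^ 2 ≤ H * Y') (h4 : 4 * n * Y' ≤ (N : ℝ) ^ 2)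
    (hs : ∀ m ∈ B, ∃ s : ℤˣ, ∀ z : ℕ, m ^ 2 < z → (z : ℝ) ≤ (m : ℝ) ^ 2 + H → z ∉ Z m → lam z = s)
    (hA : ∀ m ∈ B, ∀ z ∈ Z m, ∀ a : ℕ, a ∣ z → a ∈ A m) :
    volume {y : ℝ | y ∈ Set.Icc Y' (2 * Y') ∧ lam ⌊(n : ℝ) * y⌋₊ ≠ lam n * lam ⌊y⌋₊} ≤
      ENNReal.ofReal (1 / n) * volume (Bad B A H (n * Y' / 2)) := by
  have hn0 : (0 : ℝ) < n := by exact_mod_cast hn
  have hn1 : (1 : ℝ) ≤ n := by exact_mod_cast hn
  have hN1 : (1 : ℝ) ≤ N := by exact_mod_cast hN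
  have hN2 : (0 : ℝ) < (N : ℝ) ^ 2 := by positivity
  obtain ⟨Y, hY⟩ : ∃ Y, Y = n * Y' / 2 := ⟨_, rfl⟩
  obtain ⟨l, hl⟩ : ∃ l, l = H * Y / (16 * (N : ℝ) ^ 2) := ⟨_, rfl⟩
  have hY0 : 0 < Y := by
    rw [hY]
    positivity
  have hl1 : (n : ℝ) ≤ 3 * l := by
    have h1 : 3 * l = 3 * (H * (n * Y')) / (32 * (N : ℝ) ^ 2) := by
      rw [hl, hY]
      field_simp
      ring
    rw [h1, le_div_iff₀ (by positivity)]
    have h2 : (n : ℝ) * (11 * (N : ℝ) ^ 2) ≤ n * (H * Y') := mul_le_mul_of_nonneg_left h11 hn0.le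
    nlinarith
  have hl0 : 0 < l := by linarith
  have hl2 : l ≤ n * Y' / 32 := by
    have h1 : l = (n * Y') * H / (32 * (N : ℝ) ^ 2) := by
      rw [hl, hY]
      field_simp
      ring
    rw [h1, div_le_div_iff₀ (by positivity) (by norm_num)]
    have h2 : H ≤ (N : ℝ) ^ 2 := by nlinarith
    have h3 : 0 < n * Y' := by positivity
    have h4 : n * Y' * H ≤ n * Y' * (N : ℝ) ^ 2 := mul_le_mul_of_nonneg_left h2 h3.le
    nlinarith
  have hsub : {y : ℝ | y ∈ Set.Icc Y' (2 * Y') ∧ lam ⌊(n : ℝ) * y⌋₊ ≠ lam n * lam ⌊y⌋₊} ⊆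
      (fun y : ℝ => (n : ℝ) * y) ⁻¹' ((fun y : ℝ => y + (-(n + l))) ⁻¹' (Bad B A H Y)) := by
    rintro y' ⟨⟨hy1, hy2⟩, hne⟩
    show n * y' + (-(n + l)) ∈ Bad B A H Y
    obtain ⟨y, hy⟩ : ∃ y, y = n * y' + (-(n + l)) := ⟨_, rfl⟩
    rw [← hy]
    by_contra hbad
    have k1 : (n : ℝ) * Y' ≤ n * y' := mul_le_mul_of_nonneg_left hy1 hn0.le
    have k2 : (n : ℝ) * y' ≤ n * (2 * Y') := mul_le_mul_of_nonneg_left hy2 hn0.le
    have k3 : (n : ℝ) * 4 ≤ n * Y' := mul_le_mul_of_nonneg_left hY4 hn0.le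
    have hyY1 : Y ≤ y := by
      rw [hy, hY]
      nlinarith
    have hyY2 : y ≤ 4 * Y := by
      rw [hy, hY]
      nlinarith
    have h8 : 8 * Y ≤ (N : ℝ) ^ 2 := by
      rw [hY]
      linarith
    unfold Bad at hbad
    rw [Set.mem_setOf_eq, not_and] at hbad
    have hb := hbad ⟨hyY1, hyY2⟩
    push Not at hb
    obtain ⟨m, hm, hρ, hmA⟩ := hb
    obtain ⟨s, hsm⟩ := hs m hm
    obtain ⟨hm1, hm2⟩ := hB m hm
    have hcov : ∀ b : ℕ, n * y' - n < b → (b : ℝ) ≤ n * y' →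
        lam b = s * lam ⌊(m : ℝ) ^ 2 / y⌋₊ := by
      intro b hb1 hb2
      refine cover hN hm1 hm2 hH hY0 h8 hyY1 hyY2 hρ hsm
        (fun z hz hdvd => hmA (hA m hm z hz _ hdvd)) ?_ ?_
      · rw [← hl, hy]
        linarith
      · rw [← hl, hy]
        linarith
    have hy'0 : 0 ≤ y' := by linarith
    have hy'1 : 1 ≤ ⌊y'⌋₊ := Nat.le_floor (by push_cast; linarith)
    have c1 := hcov ⌊(n : ℝ) * y'⌋₊ (by
      have := Nat.lt_floor_add_one ((n : ℝ) * y')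
      linarith) (Nat.floor_le (by positivity))
    have c2 := hcov (n * ⌊y'⌋₊) (by
      push_cast
      have h5 := Nat.lt_floor_add_one y'
      have h6 : (n : ℝ) * y' < n * (⌊y'⌋₊ + 1) := mul_lt_mul_of_pos_left h5 hn0
      linarith) (by
      push_cast
      exact mul_le_mul_of_nonneg_left (Nat.floor_le hy'0) hn0.le)
    rw [Pool.Agent.Helper68.CO2.cm_lam n ⌊y'⌋₊ (by omega) (by omega)] at c2
    exact hne (c1.trans c2.symm)
  rw [← hY]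
  refine (measure_mono hsub).trans (le_of_eq ?_)
  rw [Real.volume_preimage_mul_left hn0.ne', measure_preimage_add_right]
  congr 2
  rw [abs_of_pos (inv_pos.2 hn0), one_div]

end Pool.Agent.Helper26.QS
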