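import Pool.Agent.Helper26.QS.VolBad
import Pool.Agent.Helper26.QS.Step
import Pool.Agent.Helper26.QS.Par
import Pool.Agent.Helper26.QS.Core
import Pool.Agent.Helper53.KM.G13

/-!
# QS-Blk: one block `(N, 2 N]`

PROOF.  `c = (ε - 10 δ) / 100`, `a` with `2 ^ a * c ≥ 4`, `C`, `M0` from `core a`.  `H = N ^ (1 - δ)`, `M = ⌊N ^ c⌋₊`, `Ya = 11 N ^ (1 + δ)` (so
`H Ya = 11 N ^ 2`), `Yb = Ya M C ≤ 11 C N ^ (1 + δ + c)`, `Yb C ≤ M ^ (2 ^ a)` for large `N` (`1 + δ + c < 4 - 1`).  If `#B > N ^ ε`, take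
`B' ⊆ B` with `#B' = ⌈N ^ (9 δ + 50 c)⌉₊` (`9 δ + 50 c < ε`), `Z m` = the exceptional `z`, `A m` = the divisors of the elements of `Z m`:
`#(A m) ≤ 2 N ^ (1 - ε) C' N ^ c` (`divisor_bound` in Helper53/KM/G13.lean, namespace Pool.Agent.M17.Helper89.SLE, `z ≤ 5 N ^ 2`).  For
`n ∈ [M / 2, M]`, `Y' ∈ [Ya, Yb]`: `Y = n Y' / 2 ≤ T N ^ (1 + δ + 3 c)`, `4 n Y' ≤ N ^ 2`, `N ≤ Y`, `J = ⌈2 (512 Y / H) ^ 2⌉₊ ≤ T (Y / H) ^ 2`;
`step_vol`, `vol_bad`, `par` (with this `C`): the volume is at most `(1 / n) (2 Y / C) = Y' / C`.  Contradiction to `core` with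
`η = 1 / C`.
-/

set_option autoImplicit false

namespace Pool.Agent.Helper26.QS

open Finset MeasureTheory
open Pool.Agent.Helper68.CO2 (lam)

/-- large `N` -/
theorem Blk_large (δ c C : ℝ) (a M0 : ℕ) (hc : 0 < c) (hc1 : c ≤ 1 / 100) (hδ : 0 ≤ δ)
    (hδ1 : δ ≤ 1 / 10) (hC : 1 ≤ C) (ha : 4 ≤ (2 : ℝ) ^ a * c) : ∃ N0 : ℕ, ∀ N : ℕ, N0 ≤ N →
    (1 ≤ (N : ℝ)) ∧ M0 ≤ ⌊(N : ℝ) ^ c⌋₊ ∧ 4 ≤ (N : ℝ) ^ c ∧
    44 * C * (N : ℝ) ^ (1 + δ + 2 * c) ≤ (N : ℝ) ^ 2 ∧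
    11 * (N : ℝ) ^ (1 + δ) * (⌊(N : ℝ) ^ c⌋₊ : ℝ) * C * C ≤ (⌊(N : ℝ) ^ c⌋₊ : ℝ) ^ (2 ^ a) := by
  have t1 : Filter.Tendsto (fun N : ℕ => (N : ℝ)) Filter.atTop Filter.atTop :=
    tendsto_natCast_atTop_atTop
  have t2 : Filter.Tendsto (fun N : ℕ => (N : ℝ) ^ c) Filter.atTop Filter.atTop :=
    (tendsto_rpow_atTop hc).comp t1
  have t3 : Filter.Tendsto (fun N : ℕ => (N : ℝ) ^ (1 - δ - 2 * c)) Filter.atTop Filter.atTop :=
    (tendsto_rpow_atTop (by linarith)).comp t1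
  set k : ℕ := 2 ^ a - 1 with hk
  have hka : 2 ^ a = k + 1 := by
    have : 1 ≤ 2 ^ a := Nat.one_le_two_pow
    omega
  obtain ⟨N0, hN0⟩ := Filter.eventually_atTop.1 (((t1.eventually_ge_atTop 1).and
    (t1.eventually_ge_atTop (11 * C * C * 2 ^ k))).and ((t2.eventually_ge_atTop (M0 : ℝ)).and
      ((t2.eventually_ge_atTop 4).and (t3.eventually_ge_atTop (44 * C)))))
  refine ⟨N0, fun N hN => ?_⟩
  obtain ⟨⟨h1, h2⟩, h3, h4, h5⟩ := hN0 N hN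
  have hN : (0 : ℝ) < N := by linarith
  refine ⟨h1, Nat.le_floor h3, h4, ?_, ?_⟩
  · calc 44 * C * (N : ℝ) ^ (1 + δ + 2 * c)
        ≤ (N : ℝ) ^ (1 - δ - 2 * c) * (N : ℝ) ^ (1 + δ + 2 * c) :=
          mul_le_mul_of_nonneg_right h5 (by positivity)
      _ = (N : ℝ) ^ 2 := by
          rw [← Real.rpow_add hN, ← Real.rpow_natCast]
          congr 1
          push_cast
          ring
  · set M : ℝ := (⌊(N : ℝ) ^ c⌋₊ : ℝ) with hM
    have hM1 : (N : ℝ) ^ c / 2 ≤ M := by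
      have := Nat.lt_floor_add_one ((N : ℝ) ^ c)
      rw [← hM] at this
      linarith
    have hM0 : 0 ≤ M := by positivity
    have h6 : ((N : ℝ) ^ c / 2) ^ k ≤ M ^ k := pow_le_pow_left₀ (by positivity) hM1 k
    have h7 : (N : ℝ) ^ 3 ≤ ((N : ℝ) ^ c) ^ k := by
      rw [← Real.rpow_natCast ((N : ℝ) ^ c) k, ← Real.rpow_mul hN.le, ← Real.rpow_natCast _ 3]
      refine Real.rpow_le_rpow_of_exponent_le h1 ?_
      have h8 : (k : ℝ) + 1 = 2 ^ a := by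
        exact_mod_cast hka.symm
      rw [← h8] at ha
      push_cast
      nlinarith
    have h8 : (N : ℝ) ^ (1 + δ) ≤ (N : ℝ) ^ 2 := by
      rw [← Real.rpow_natCast _ 2]
      refine Real.rpow_le_rpow_of_exponent_le h1 ?_
      push_cast
      linarith
    have h9 : 11 * (N : ℝ) ^ (1 + δ) * C * C ≤ M ^ k := by
      have h10 : 0 < (2 : ℝ) ^ k := by positivity
      have h11 : 11 * (N : ℝ) ^ (1 + δ) * C * C * 2 ^ k ≤ M ^ k * 2 ^ k := by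
        calc 11 * (N : ℝ) ^ (1 + δ) * C * C * 2 ^ k
            = (N : ℝ) ^ (1 + δ) * (11 * C * C * 2 ^ k) := by ring
          _ ≤ (N : ℝ) ^ 2 * N := mul_le_mul h8 h2 (by positivity) (by positivity)
          _ = (N : ℝ) ^ 3 := by ring
          _ ≤ ((N : ℝ) ^ c) ^ k := h7
          _ = ((N : ℝ) ^ c / 2) ^ k * 2 ^ k := by
              rw [← mul_pow]
              congr 1
              ring
          _ ≤ M ^ k * 2 ^ k := mul_le_mul_of_nonneg_right h6 h10.le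
      exact le_of_mul_le_mul_right h11 h10
    rw [hka, pow_succ]
    calc 11 * (N : ℝ) ^ (1 + δ) * M * C * C = 11 * (N : ℝ) ^ (1 + δ) * C * C * M := by ring
      _ ≤ M ^ k * M := mul_le_mul_of_nonneg_right h9 hM0

theorem block (δ ε : ℝ) (hδ : 0 ≤ δ) (h : 10 * δ < ε) (hε1 : ε ≤ 1) : ∃ N0 : ℕ, ∀ N : ℕ, N0 ≤ N →
    ∀ B : Finset ℕ, (∀ m ∈ B, N < m ∧ m ≤ 2 * N) →
    (∀ m ∈ B, ∃ s : ℤˣ, ({z : ℕ | m ^ 2 < z ∧ (z : ℝ) ≤ (m : ℝ) ^ 2 + (N : ℝ) ^ (1 - δ) ∧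
      lam z ≠ s}.ncard : ℝ) ≤ 2 * (N : ℝ) ^ (1 - ε)) → (#B : ℝ) ≤ (N : ℝ) ^ ε := by
  classical
  set c : ℝ := (ε - 10 * δ) / 100 with hcdef
  have hc : 0 < c := by rw [hcdef]; linarith
  have hc1 : c ≤ 1 / 100 := by rw [hcdef]; linarith
  have hδ1 : δ ≤ 1 / 10 := by linarith
  obtain ⟨C', hC'1, hdiv⟩ := Pool.Agent.M17.Helper89.SLE.divisor_bound (c / 2) (by linarith)
  obtain ⟨a, ha⟩ : ∃ a : ℕ, 4 ≤ (2 : ℝ) ^ a * c := by
    obtain ⟨a, ha⟩ := pow_unbounded_of_one_lt (4 / c) (one_lt_two : (1 : ℝ) < 2)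
    rw [div_lt_iff₀ hc] at ha
    exact ⟨a, ha.le⟩
  obtain ⟨C, M0, hC1, hcore⟩ := core a
  set T : ℝ := 11 * C + 10 * C' + 524289 with hT
  have hT1 : 1 ≤ T := by rw [hT]; linarith
  obtain ⟨N1, hN1⟩ := par δ ε C T hδ h hε1 hC1 hT1
  obtain ⟨N2, hN2⟩ := Blk_large δ c C a M0 hc hc1 hδ hδ1 hC1 ha
  refine ⟨max N1 N2, fun N hN B hB hB2 => ?_⟩
  by_contra hcon
  push Not at hcon
  have hpar := hN1 N (le_trans (le_max_left _ _) hN)
  obtain ⟨l1, l2, l3, l4, l5⟩ := hN2 N (le_trans (le_max_right _ _) hN)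
  clear hN1 hN2
  rw [← hcdef] at hpar
  have hN0 : (0 : ℝ) < N := by linarith
  have hNn : 0 < N := by exact_mod_cast hN0
  set M : ℕ := ⌊(N : ℝ) ^ c⌋₊ with hM
  have hMle : (M : ℝ) ≤ (N : ℝ) ^ c := Nat.floor_le (by positivity)
  have hM4 : 4 ≤ M := Nat.le_floor (by exact_mod_cast l3)
  set H : ℝ := (N : ℝ) ^ (1 - δ) with hH
  have hH0 : 0 < H := by positivity
  have hHN : H ≤ N := by
    calc H ≤ (N : ℝ) ^ (1 : ℝ) := Real.rpow_le_rpow_of_exponent_le l1 (by linarith)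
      _ = N := Real.rpow_one _
  -- the subset
  have hRle : ⌈(N : ℝ) ^ (9 * δ + 50 * c)⌉₊ ≤ #B := by
    apply Nat.ceil_le.2
    refine le_trans (Real.rpow_le_rpow_of_exponent_le l1 ?_) hcon.le
    rw [hcdef]
    linarith
  obtain ⟨B', hB'B, hB'c⟩ := Finset.exists_subset_card_eq hRle
  have hR1 : (N : ℝ) ^ (9 * δ + 50 * c) ≤ (#B' : ℝ) := by
    rw [hB'c]
    exact Nat.le_ceil _
  have hpow1 : (1 : ℝ) ≤ (N : ℝ) ^ (9 * δ + 50 * c) :=
    Real.one_le_rpow l1 (by positivity)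
  have hR2 : (#B' : ℝ) ≤ 2 * (N : ℝ) ^ (9 * δ + 50 * c) := by
    rw [hB'c]
    have := Nat.ceil_lt_add_one (a := (N : ℝ) ^ (9 * δ + 50 * c)) (by positivity)
    linarith
  have hB'ne : B'.Nonempty := by
    rw [← Finset.card_pos]
    have : (0 : ℝ) < #B' := by linarith
    exact_mod_cast this
  have hB' : ∀ m ∈ B', N < m ∧ m ≤ 2 * N := fun m hm => hB m (hB'B hm)
  -- the exceptional sets
  choose! s hs using hB2
  have hfin : ∀ m : ℕ, {z : ℕ | m ^ 2 < z ∧ (z : ℝ) ≤ (m : ℝ) ^ 2 + H ∧ lam z ≠ s m}.Finite := by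
    intro m
    refine (Set.finite_Iic ⌊(m : ℝ) ^ 2 + H⌋₊).subset ?_
    rintro z ⟨-, hz, -⟩
    exact Nat.le_floor hz
  let Z : ℕ → Finset ℕ := fun m => (hfin m).toFinset
  have hZ : ∀ m z, z ∈ Z m ↔ (m ^ 2 < z ∧ (z : ℝ) ≤ (m : ℝ) ^ 2 + H ∧ lam z ≠ s m) := by
    intro m z
    change z ∈ (hfin m).toFinset ↔ _
    rw [Set.Finite.mem_toFinset]
    rfl
  have hZc : ∀ m ∈ B', (#(Z m) : ℝ) ≤ 2 * (N : ℝ) ^ (1 - ε) := by
    intro m hm
    have h1 := hs m (hB'B hm)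
    rw [Set.ncard_eq_toFinset_card _ (hfin m)] at h1
    exact h1
  let A : ℕ → Finset ℕ := fun m => (Z m).biUnion Nat.divisors
  set E : ℝ := T * (N : ℝ) ^ (1 - ε + c) with hE
  have hE0 : 0 ≤ E := by rw [hE]; positivity
  have hAE : ∀ m ∈ B', (#(A m) : ℝ) ≤ E := by
    intro m hm
    have hd : ∀ z ∈ Z m, (#(Nat.divisors z) : ℝ) ≤ C' * (5 * (N : ℝ) ^ c) := by
      intro z hz
      obtain ⟨hz1, hz2, -⟩ := (hZ m z).1 hz
      have hz0 : 0 < z := by omega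
      have hm2 : (m : ℝ) ≤ 2 * N := by exact_mod_cast (hB' m hm).2
      have hz5 : (z : ℝ) ≤ 5 * (N : ℝ) ^ 2 := by
        have h1 : (m : ℝ) ^ 2 ≤ (2 * N) ^ 2 := pow_le_pow_left₀ (by positivity) hm2 2
        have h2 : (N : ℝ) ≤ (N : ℝ) ^ 2 := by nlinarith
        nlinarith
      have h1 : (z : ℝ) ^ (c / 2) ≤ 5 * (N : ℝ) ^ c := by
        calc (z : ℝ) ^ (c / 2) ≤ (5 * (N : ℝ) ^ 2) ^ (c / 2) :=
              Real.rpow_le_rpow (by positivity) hz5 (by linarith)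
          _ = (5 : ℝ) ^ (c / 2) * (N : ℝ) ^ c := by
              rw [Real.mul_rpow (by norm_num) (by positivity), ← Real.rpow_natCast (N : ℝ) 2,
                ← Real.rpow_mul hN0.le]
              congr 2
              push_cast
              ring
          _ ≤ 5 * (N : ℝ) ^ c := by
              refine mul_le_mul_of_nonneg_right ?_ (by positivity)
              calc (5 : ℝ) ^ (c / 2) ≤ (5 : ℝ) ^ (1 : ℝ) :=
                    Real.rpow_le_rpow_of_exponent_le (by norm_num) (by linarith)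
                _ = 5 := Real.rpow_one _
      exact (hdiv z hz0).trans (mul_le_mul_of_nonneg_left h1 (by linarith))
    have h1 : (#(A m) : ℝ) ≤ ∑ z ∈ Z m, (#(Nat.divisors z) : ℝ) := by
      exact_mod_cast Finset.card_biUnion_le
    have h2 : ∑ z ∈ Z m, (#(Nat.divisors z) : ℝ) ≤ #(Z m) * (C' * (5 * (N : ℝ) ^ c)) := by
      rw [← nsmul_eq_mul]
      exact Finset.sum_le_card_nsmul _ _ _ hd
    have h3 : (#(Z m) : ℝ) * (C' * (5 * (N : ℝ) ^ c)) ≤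
        2 * (N : ℝ) ^ (1 - ε) * (C' * (5 * (N : ℝ) ^ c)) :=
      mul_le_mul_of_nonneg_right (hZc m hm) (by positivity)
    have h4 : 2 * (N : ℝ) ^ (1 - ε) * (C' * (5 * (N : ℝ) ^ c)) =
        10 * C' * (N : ℝ) ^ (1 - ε + c) := by
      rw [Real.rpow_add hN0]
      ring
    have h5 : 10 * C' * (N : ℝ) ^ (1 - ε + c) ≤ E := by
      rw [hE]
      refine mul_le_mul_of_nonneg_right ?_ (by positivity)
      rw [hT]
      linarith
    linarith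
  have hsZ : ∀ m ∈ B', ∃ s : ℤˣ, ∀ z : ℕ, m ^ 2 < z → (z : ℝ) ≤ (m : ℝ) ^ 2 + H → z ∉ Z m →
      lam z = s := by
    intro m _
    refine ⟨s m, fun z hz1 hz2 hz3 => ?_⟩
    by_contra hne
    exact hz3 ((hZ m z).2 ⟨hz1, hz2, hne⟩)
  have hA : ∀ m ∈ B', ∀ z ∈ Z m, ∀ a : ℕ, a ∣ z → a ∈ A m := by
    intro m _ z hz a haz
    refine Finset.mem_biUnion.2 ⟨z, hz, Nat.mem_divisors.2 ⟨haz, ?_⟩⟩
    have := ((hZ m z).1 hz).1
    omega
  -- the application of `core`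
  set Ya : ℝ := 11 * (N : ℝ) ^ (1 + δ) with hYa
  have hYaN : 11 * (N : ℝ) ≤ Ya := by
    rw [hYa]
    refine mul_le_mul_of_nonneg_left ?_ (by norm_num)
    calc (N : ℝ) = (N : ℝ) ^ (1 : ℝ) := (Real.rpow_one _).symm
      _ ≤ (N : ℝ) ^ (1 + δ) := Real.rpow_le_rpow_of_exponent_le l1 (by linarith)
  refine hcore M Ya (Ya * M * C) (1 / C) l2 (by linarith) le_rfl l5 (by positivity)
    (by rw [one_div, inv_mul_cancel₀ (by linarith)]) ?_
  intro n hn1 hn2 Y' hY1 hY2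
  have hn : 0 < n := by omega
  have hn0 : (1 : ℝ) ≤ n := by exact_mod_cast hn
  have hnM : (n : ℝ) ≤ (N : ℝ) ^ c := le_trans (by exact_mod_cast hn2) hMle
  have hY'0 : 0 < Y' := by linarith
  have hYup : Y' ≤ 11 * C * (N : ℝ) ^ (1 + δ + c) := by
    calc Y' ≤ Ya * M * C := hY2
      _ ≤ Ya * (N : ℝ) ^ c * C := by
          refine mul_le_mul_of_nonneg_right (mul_le_mul_of_nonneg_left hMle (by linarith))
            (by linarith)
      _ = 11 * C * (N : ℝ) ^ (1 + δ + c) := by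
          rw [hYa, Real.rpow_add hN0 (1 + δ) c]
          ring
  have hnY : (n : ℝ) * Y' ≤ 11 * C * (N : ℝ) ^ (1 + δ + 2 * c) := by
    calc (n : ℝ) * Y' ≤ (N : ℝ) ^ c * (11 * C * (N : ℝ) ^ (1 + δ + c)) :=
          mul_le_mul hnM hYup hY'0.le (by positivity)
      _ = 11 * C * (N : ℝ) ^ (1 + δ + 2 * c) := by
          have h1 : (N : ℝ) ^ (1 + δ + 2 * c) = (N : ℝ) ^ c * (N : ℝ) ^ (1 + δ + c) := by
            rw [← Real.rpow_add hN0]
            congr 1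
            ring
          rw [h1]
          ring
  have h11 : 11 * (N : ℝ) ^ 2 ≤ H * Y' := by
    calc 11 * (N : ℝ) ^ 2 = H * Ya := by
          have h1 : (N : ℝ) ^ 2 = H * (N : ℝ) ^ (1 + δ) := by
            rw [hH, ← Real.rpow_add hN0, ← Real.rpow_natCast]
            congr 1
            push_cast
            ring
          rw [h1, hYa]
          ring
      _ ≤ H * Y' := mul_le_mul_of_nonneg_left hY1 hH0.le
  have h4 : 4 * (n : ℝ) * Y' ≤ (N : ℝ) ^ 2 := by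
    calc 4 * (n : ℝ) * Y' = 4 * ((n : ℝ) * Y') := by ring
      _ ≤ 4 * (11 * C * (N : ℝ) ^ (1 + δ + 2 * c)) := by linarith
      _ = 44 * C * (N : ℝ) ^ (1 + δ + 2 * c) := by ring
      _ ≤ _ := l4
  have hstep := step_vol hNn hn hB' hH0 hHN (by linarith) h11 h4 hsZ hA
  set Y : ℝ := (n : ℝ) * Y' / 2 with hY
  have hYN : (N : ℝ) ≤ Y := by
    have h1 : Y' ≤ (n : ℝ) * Y' := by nlinarith
    rw [hY]
    linarith
  have hY0 : 0 < Y := by linarith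
  set J : ℕ := ⌈2 * (512 * Y / H) ^ 2⌉₊ with hJ
  have hYH : 1 ≤ Y / H := by
    rw [one_le_div hH0]
    linarith
  have hJ1 : 2 ≤ (J : ℝ) * (H / (512 * Y)) ^ 2 := by
    have h1 : 2 * (512 * Y / H) ^ 2 ≤ (J : ℝ) := Nat.le_ceil _
    calc (2 : ℝ) = 2 * (512 * Y / H) ^ 2 * (H / (512 * Y)) ^ 2 := by
          field_simp
      _ ≤ (J : ℝ) * (H / (512 * Y)) ^ 2 := mul_le_mul_of_nonneg_right h1 (by positivity)
  have hJ2 : (J : ℝ) ≤ T * (Y / H) ^ 2 := by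
    have h1 : (J : ℝ) < 2 * (512 * Y / H) ^ 2 + 1 := Nat.ceil_lt_add_one (by positivity)
    have h2 : (1 : ℝ) ≤ (Y / H) ^ 2 := one_le_pow₀ hYH
    have h3 : 2 * (512 * Y / H) ^ 2 = 524288 * (Y / H) ^ 2 := by ring
    have h5 : 524289 * (Y / H) ^ 2 ≤ T * (Y / H) ^ 2 := by
      refine mul_le_mul_of_nonneg_right ?_ (by positivity)
      rw [hT]
      linarith
    linarith
  have hbad := vol_bad hNn hB' hB'ne hE0 hAE hH0 (hHN.trans hYN)
    (by rw [hY]; linarith) hJ1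
  have hYT : Y ≤ T * (N : ℝ) ^ (1 + δ + 3 * c) := by
    have h1 : (N : ℝ) ^ (1 + δ + 2 * c) ≤ (N : ℝ) ^ (1 + δ + 3 * c) :=
      Real.rpow_le_rpow_of_exponent_le l1 (by linarith)
    calc Y ≤ (n : ℝ) * Y' := by rw [hY]; nlinarith
      _ ≤ 11 * C * (N : ℝ) ^ (1 + δ + 2 * c) := hnY
      _ ≤ T * (N : ℝ) ^ (1 + δ + 3 * c) := by
          refine mul_le_mul ?_ h1 (by positivity) (by linarith)
          rw [hT]
          linarith
  have hp := hpar Y (#B') E J hYN hYT hR1 hR2 hE0 le_rfl hJ2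
  refine hstep.trans ?_
  refine (mul_le_mul_right hbad _).trans ?_
  rw [← ENNReal.ofReal_mul (by positivity)]
  apply ENNReal.ofReal_le_ofReal
  rw [div_mul_eq_mul_div, one_mul, div_le_div_iff₀ (by linarith) (by linarith), one_mul] at hp
  rw [div_mul_eq_mul_div, one_mul, div_mul_eq_mul_div, one_mul,
    div_le_div_iff₀ (by linarith) (by linarith)]
  refine hp.trans (le_of_eq ?_)
  rw [hY]
  ring

end Pool.Agent.Helper26.QS
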