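import Pool.Agent.Helper26.QS.Defs

/-!
# QS-Cover: one good `m` makes `lam` constant on a long interval near `y`

PROOF.  `x = m ^ 2`, `a = ⌊x / y⌋₊`, `x = y (a + t)`, `0 ≤ t < H / (512 Y)`, `a ≥ x / (2 y)` (`x ≥ 2 y`).  `x / a = y + y t / a ≤ y + 2 y ^ 2 t / x
≤ y + H Y / (16 N ^ 2)`, so `a b > x`.  `a b ≤ a y + 4 l a ≤ x + 4 l x / y ≤ x + H`.  `a b ∉ Z` as `a ∣ a b`.  So
`s = lam (a b) = lam a * lam b`.
-/

set_option autoImplicit false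

namespace Pool.Agent.Helper26.QS

open Finset MeasureTheory
open Pool.Agent.Helper68.CO2 (lam)

theorem cover {N m : ℕ} (hN : 0 < N) (hm1 : N < m) (hm2 : m ≤ 2 * N) {H Y y : ℝ} (hH : 0 < H)
    (hY : 0 < Y) (h8 : 8 * Y ≤ (N : ℝ) ^ 2) (hy1 : Y ≤ y) (hy2 : y ≤ 4 * Y)
    (hρ : Int.fract ((m : ℝ) ^ 2 / y) < H / (512 * Y)) {s : ℤˣ} {Z : Finset ℕ}
    (hs : ∀ z : ℕ, m ^ 2 < z → (z : ℝ) ≤ (m : ℝ) ^ 2 + H → z ∉ Z → lam z = s)
    (hA : ∀ z ∈ Z, ¬ ⌊(m : ℝ) ^ 2 / y⌋₊ ∣ z) {b : ℕ}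
    (hb1 : y + H * Y / (16 * (N : ℝ) ^ 2) < b) (hb2 : b ≤ y + 4 * (H * Y / (16 * (N : ℝ) ^ 2))) :
    lam b = s * lam ⌊(m : ℝ) ^ 2 / y⌋₊ := by
  have hN' : (0 : ℝ) < N := by exact_mod_cast hN
  have hm1' : (N : ℝ) ≤ m := by exact_mod_cast hm1.le
  have hm2' : (m : ℝ) ≤ 2 * N := by exact_mod_cast hm2
  have hy : 0 < y := lt_of_lt_of_le hY hy1
  obtain ⟨x, hx⟩ : ∃ x : ℝ, x = (m : ℝ) ^ 2 := ⟨_, rfl⟩
  have hxN : (N : ℝ) ^ 2 ≤ x := by
    rw [hx]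
    exact pow_le_pow_left₀ hN'.le hm1' 2
  have hxN4 : x ≤ 4 * (N : ℝ) ^ 2 := by
    rw [hx]
    calc (m : ℝ) ^ 2 ≤ (2 * N) ^ 2 := pow_le_pow_left₀ (hN'.le.trans hm1') hm2' 2
      _ = 4 * (N : ℝ) ^ 2 := by ring
  have hN2 : (0 : ℝ) < (N : ℝ) ^ 2 := pow_pos hN' 2
  have hx0 : 0 < x := lt_of_lt_of_le hN2 hxN
  rw [← hx] at hρ hA ⊢
  have hq0 : 0 ≤ x / y := (div_pos hx0 hy).le
  obtain ⟨a, ha⟩ : ∃ a : ℕ, a = ⌊x / y⌋₊ := ⟨_, rfl⟩
  rw [← ha] at hA ⊢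
  have hfr : Int.fract (x / y) = x / y - a := by
    rw [ha]
    have h1 := Int.fract_add_floor (x / y)
    have h2 : ((⌊x / y⌋₊ : ℕ) : ℝ) = ((⌊x / y⌋ : ℤ) : ℝ) := natCast_floor_eq_intCast_floor hq0
    rw [h2]
    linarith
  have hale : (a : ℝ) ≤ x / y := by
    have := Int.fract_nonneg (x / y)
    linarith
  have halt : x / y - 1 < a := by
    have := Int.fract_lt_one (x / y)
    linarith
  have hxy2 : 2 ≤ x / y := by
    rw [le_div_iff₀ hy]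
    linarith
  have hahalf : x / y ≤ 2 * a := by linarith
  have hay : (a : ℝ) * y ≤ x := by
    rw [← le_div_iff₀ hy]
    exact hale
  have hxay : x ≤ 2 * a * y := by
    rw [← div_le_iff₀ hy]
    exact hahalf
  -- the length
  obtain ⟨l, hl⟩ : ∃ l : ℝ, l = H * Y / (16 * (N : ℝ) ^ 2) := ⟨_, rfl⟩
  rw [← hl] at hb1 hb2
  have hl0 : 0 < l := by
    rw [hl]
    positivity
  have hlN : l * (16 * (N : ℝ) ^ 2) = H * Y := by
    rw [hl]
    field_simp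
  have ha0' : (0 : ℝ) < a := by linarith
  have ha0 : a ≠ 0 := by
    rintro rfl
    simp at ha0'
  have hb0 : b ≠ 0 := by
    rintro rfl
    simp only [Nat.cast_zero] at hb1
    linarith
  -- `a * l ≥ H / 128`
  have hal : H / 128 ≤ a * l := by
    have h1 : (N : ℝ) ^ 2 ≤ 8 * Y * a := by
      have h2 : 2 * (a : ℝ) * y ≤ 2 * a * (4 * Y) :=
        mul_le_mul_of_nonneg_left hy2 (by positivity)
      linarith
    have h2 : (N : ℝ) ^ 2 * l ≤ 8 * Y * a * l := mul_le_mul_of_nonneg_right h1 hl0.le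
    have h3 : H * Y ≤ 128 * (a * l) * Y := by
      rw [← hlN]
      linarith
    have h4 : H ≤ 128 * (a * l) := le_of_mul_le_mul_right h3 hY
    linarith
  have hty : x - a * y < H / 128 := by
    have h1 : x / y - a < H / (512 * Y) := hfr ▸ hρ
    have h2 : (x / y - a) * y < H / (512 * Y) * y := mul_lt_mul_of_pos_right h1 hy
    have h3 : (x / y - a) * y = x - a * y := by
      field_simp
    have h4 : H / (512 * Y) * y ≤ H / (512 * Y) * (4 * Y) :=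
      mul_le_mul_of_nonneg_left hy2 (by positivity)
    have h5 : H / (512 * Y) * (4 * Y) = H / 128 := by
      field_simp
      norm_num
    linarith
  have hgt : x < (a : ℝ) * b := by
    have h1 : (a : ℝ) * (y + l) < a * b := mul_lt_mul_of_pos_left hb1 ha0'
    linarith
  have hle : (a : ℝ) * b ≤ x + H := by
    have h1 : (a : ℝ) * b ≤ a * (y + 4 * l) := mul_le_mul_of_nonneg_left hb2 ha0'.le
    have h2 : (a : ℝ) * Y ≤ 4 * (N : ℝ) ^ 2 := by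
      have h3 : (a : ℝ) * Y ≤ a * y := mul_le_mul_of_nonneg_left hy1 ha0'.le
      linarith
    have h3 : (a : ℝ) * Y * l ≤ 4 * (N : ℝ) ^ 2 * l := mul_le_mul_of_nonneg_right h2 hl0.le
    have h4 : 4 * (a * l) * Y ≤ H * Y := by
      rw [← hlN]
      linarith
    have h5 : 4 * (a * l) ≤ H := le_of_mul_le_mul_right h4 hY
    linarith
  have hz1 : m ^ 2 < a * b := by
    rw [hx] at hgt
    exact_mod_cast hgt
  have hz2 : ((a * b : ℕ) : ℝ) ≤ (m : ℝ) ^ 2 + H := by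
    rw [← hx]
    push_cast
    exact hle
  have hz3 : a * b ∉ Z := fun h => hA _ h (dvd_mul_right a b)
  have h1 := hs (a * b) hz1 hz2 hz3
  rw [Pool.Agent.Helper68.CO2.cm_lam a b ha0 hb0] at h1
  rw [← h1, mul_assoc, mul_comm (lam b), ← mul_assoc, Int.units_mul_self, one_mul]

end Pool.Agent.Helper26.QS
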