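import Mathlib
import Pool.Agent.Helper68.CO2.Liou

/-!
# QS-Defs: definitions (MP_36c81c_nt, windows after squares)
-/

set_option autoImplicit false

namespace Pool.Agent.Helper26.QS

open Finset MeasureTheory
open Pool.Agent.Helper68.CO2 (lam)

/-- `e(t) = exp (2 π i t)` -/
noncomputable def ee (t : ℝ) : ℂ := Complex.exp (((2 * Real.pi * t : ℝ) : ℂ) * Complex.I)

/-- the `y` in `[Y, 4 Y]` for which no `m ∈ B` has the fractional part of `m ^ 2 / y` below `H / (512 Y)`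
and `⌊m ^ 2 / y⌋` outside the exceptional set `A m` -/
def Bad (B : Finset ℕ) (A : ℕ → Finset ℕ) (H Y : ℝ) : Set ℝ :=
  {y : ℝ | y ∈ Set.Icc Y (4 * Y) ∧ ∀ m ∈ B,
    H / (512 * Y) ≤ Int.fract ((m : ℝ) ^ 2 / y) ∨ ⌊(m : ℝ) ^ 2 / y⌋₊ ∈ A m}

end Pool.Agent.Helper26.QS
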