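import Pool.Agent.Helper26.QS.Defs

/-!
# QS-Exc: volume of the `y` with an exceptional floor

PROOF.  For given `m`, `a`: if `⌊m ^ 2 / y⌋₊ = a` for some `y ∈ [Y, 4 Y]` then `a + 1 > m ^ 2 / (4 Y) ≥ 2`, so `a ≥ m ^ 2 / (8 Y)`, and
`y ∈ [m ^ 2 / (a + 1), m ^ 2 / a]`, of length `m ^ 2 / (a (a + 1)) ≤ 64 Y ^ 2 / m ^ 2 ≤ 64 Y ^ 2 / N ^ 2`.  Sum over `m ∈ B`, `a ∈ A m`.
-/

set_option autoImplicit false

namespace Pool.Agent.Helper26.QS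

open Finset MeasureTheory
open Pool.Agent.Helper68.CO2 (lam)

private theorem vol_one {N m a : ℕ} (hN : 0 < N) (hm : N < m) {Y : ℝ} (hY : 0 < Y)
    (h8 : 8 * Y ≤ (N : ℝ) ^ 2) :
    volume {y : ℝ | y ∈ Set.Icc Y (4 * Y) ∧ ⌊(m : ℝ) ^ 2 / y⌋₊ = a} ≤
      ENNReal.ofReal (64 * Y ^ 2 / (N : ℝ) ^ 2) := by
  have hN' : (0 : ℝ) < N := by exact_mod_cast hN
  have hmN : (N : ℝ) < m := by exact_mod_cast hm
  have hm0 : (0 : ℝ) < m := hN'.trans hmN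
  have hmm : (N : ℝ) ^ 2 ≤ (m : ℝ) ^ 2 := pow_le_pow_left₀ hN'.le hmN.le 2
  by_cases hne : ∃ y0 ∈ Set.Icc Y (4 * Y), ⌊(m : ℝ) ^ 2 / y0⌋₊ = a
  · obtain ⟨y0, ⟨hy1, hy2⟩, hy3⟩ := hne
    have hy0 : 0 < y0 := hY.trans_le hy1
    have hq : (m : ℝ) ^ 2 / (4 * Y) ≤ (m : ℝ) ^ 2 / y0 :=
      div_le_div_of_nonneg_left (by positivity) hy0 hy2
    have hx2 : 2 ≤ (m : ℝ) ^ 2 / (4 * Y) := by
      rw [le_div_iff₀ (by positivity)]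
      linarith
    have hlt : (m : ℝ) ^ 2 / y0 < a + 1 := by
      rw [← hy3]
      exact Nat.lt_floor_add_one _
    have ha1 : (m : ℝ) ^ 2 / (4 * Y) < a + 1 := lt_of_le_of_lt hq hlt
    have ha2 : (m : ℝ) ^ 2 / (4 * Y) / 2 ≤ a := by linarith
    have ha0 : (0 : ℝ) < a := by linarith
    have hsub : {y : ℝ | y ∈ Set.Icc Y (4 * Y) ∧ ⌊(m : ℝ) ^ 2 / y⌋₊ = a} ⊆
        Set.Icc ((m : ℝ) ^ 2 / (a + 1)) ((m : ℝ) ^ 2 / a) := by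
      rintro y ⟨⟨h1, h2⟩, h3⟩
      have hyp : 0 < y := hY.trans_le h1
      have e1 : (a : ℝ) ≤ (m : ℝ) ^ 2 / y := by
        rw [← h3]
        exact Nat.floor_le (by positivity)
      have e2 : (m : ℝ) ^ 2 / y < a + 1 := by
        rw [← h3]
        exact Nat.lt_floor_add_one _
      constructor
      · rw [div_le_iff₀ (by positivity)]
        rw [div_lt_iff₀ hyp] at e2
        linarith
      · rw [le_div_iff₀ ha0]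
        rw [le_div_iff₀ hyp] at e1
        linarith
    refine (measure_mono hsub).trans ?_
    rw [Real.volume_Icc]
    apply ENNReal.ofReal_le_ofReal
    have b1 : (m : ℝ) ^ 2 < (a + 1) * (4 * Y) := by
      rwa [div_lt_iff₀ (by positivity)] at ha1
    have b2 : (m : ℝ) ^ 2 ≤ a * (8 * Y) := by
      rw [div_div, div_le_iff₀ (by positivity)] at ha2
      linarith
    have e : (m : ℝ) ^ 2 / a - (m : ℝ) ^ 2 / (a + 1) = (m : ℝ) ^ 2 / (a * (a + 1)) := by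
      field_simp
      ring
    rw [e, div_le_div_iff₀ (by positivity) (by positivity)]
    have b3 : (m : ℝ) ^ 2 * (m : ℝ) ^ 2 ≤ (a * (8 * Y)) * ((a + 1) * (4 * Y)) :=
      mul_le_mul b2 b1.le (by positivity) (by positivity)
    have b4 : (m : ℝ) ^ 2 * (N : ℝ) ^ 2 ≤ (m : ℝ) ^ 2 * (m : ℝ) ^ 2 :=
      mul_le_mul_of_nonneg_left hmm (by positivity)
    have b5 : 0 ≤ Y ^ 2 * ((a : ℝ) * (a + 1)) := by positivity
    nlinarith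
  · have : {y : ℝ | y ∈ Set.Icc Y (4 * Y) ∧ ⌊(m : ℝ) ^ 2 / y⌋₊ = a} = ∅ := by
      ext y
      simp only [Set.mem_ofPred_eq, Set.mem_empty_iff_false, iff_false]
      rintro ⟨h1, h2⟩
      exact hne ⟨y, h1, h2⟩
    rw [this, measure_empty]
    exact bot_le

theorem vol_exc {N : ℕ} (hN : 0 < N) {B : Finset ℕ} (hB : ∀ m ∈ B, N < m ∧ m ≤ 2 * N)
    {A : ℕ → Finset ℕ} {E : ℝ} (hE : ∀ m ∈ B, (#(A m) : ℝ) ≤ E) {Y : ℝ} (hY : 0 < Y)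
    (h8 : 8 * Y ≤ (N : ℝ) ^ 2) :
    volume {y : ℝ | y ∈ Set.Icc Y (4 * Y) ∧ ∃ m ∈ B, ⌊(m : ℝ) ^ 2 / y⌋₊ ∈ A m} ≤
      ENNReal.ofReal (64 * #B * E * Y ^ 2 / (N : ℝ) ^ 2) := by
  have hN' : (0 : ℝ) < N := by exact_mod_cast hN
  have hsub : {y : ℝ | y ∈ Set.Icc Y (4 * Y) ∧ ∃ m ∈ B, ⌊(m : ℝ) ^ 2 / y⌋₊ ∈ A m} ⊆
      ⋃ m ∈ B, ⋃ a ∈ A m, {y : ℝ | y ∈ Set.Icc Y (4 * Y) ∧ ⌊(m : ℝ) ^ 2 / y⌋₊ = a} := by
    rintro y ⟨h1, m, hm, h2⟩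
    simp only [Set.mem_iUnion]
    exact ⟨m, hm, _, h2, h1, rfl⟩
  have hin : ∀ m ∈ B, volume (⋃ a ∈ A m,
      {y : ℝ | y ∈ Set.Icc Y (4 * Y) ∧ ⌊(m : ℝ) ^ 2 / y⌋₊ = a}) ≤
      ENNReal.ofReal (E * (64 * Y ^ 2 / (N : ℝ) ^ 2)) := by
    intro m hm
    refine (measure_biUnion_finset_le _ _).trans ?_
    refine (Finset.sum_le_card_nsmul _ _ (ENNReal.ofReal (64 * Y ^ 2 / (N : ℝ) ^ 2))
      fun a _ => vol_one hN (hB m hm).1 hY h8).trans ?_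
    rw [← ENNReal.ofReal_nsmul, nsmul_eq_mul]
    apply ENNReal.ofReal_le_ofReal
    exact mul_le_mul_of_nonneg_right (hE m hm) (by positivity)
  refine (measure_mono hsub).trans ?_
  refine (measure_biUnion_finset_le _ _).trans ?_
  refine (Finset.sum_le_card_nsmul _ _ _ hin).trans ?_
  rw [← ENNReal.ofReal_nsmul, nsmul_eq_mul]
  apply ENNReal.ofReal_le_ofReal
  apply le_of_eq
  ring

end Pool.Agent.Helper26.QS
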