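import Pool.Agent.Helper26.QS.Blk

/-!
# QS-Fin: few windows lack a parity

PROOF.  `ε > 1`: the number is at most `N`.  `ε ≤ 1`: for `m ∈ (N, 2 N]` which fails, one parity occurs fewer than
`m ^ (1 - ε) ≤ 2 N ^ (1 - ε)` times in `(m ^ 2, m ^ 2 + m ^ (1 - δ)] ⊇ (m ^ 2, m ^ 2 + N ^ (1 - δ)]`, so `block` applies with `s` the other sign.
Sum over the blocks `(N / 2 ^ (i+1), N / 2 ^ i]` (or induction: `f(2 N) ≤ f(N) + N ^ ε + C0`): `∑ (N / 2 ^ i) ^ ε ≤ C N ^ ε`.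
-/

set_option autoImplicit false

namespace Pool.Agent.Helper26.QS

open Finset MeasureTheory
open Pool.Agent.Helper68.CO2 (lam)

/-- dyadic sum -/
theorem Fin_dyad (P : ℕ → Prop) [DecidablePred P] {ε : ℝ} (hε : 0 < ε) (N0 : ℕ)
    (hb : ∀ M : ℕ, N0 ≤ M → (#((Ioc M (2 * M)).filter P) : ℝ) ≤ (M : ℝ) ^ ε) :
    ∃ C : ℝ, ∀ N : ℕ, 1 ≤ N → (#((Icc 1 N).filter P) : ℝ) ≤ C * (N : ℝ) ^ ε := by
  have h2 : 1 < (2 : ℝ) ^ ε := Real.one_lt_rpow (by norm_num) hε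
  obtain ⟨C, hC⟩ : ∃ C : ℝ, C = max ((2 * N0 + 2 : ℕ) : ℝ) (2 / ((2 : ℝ) ^ ε - 1)) := ⟨_, rfl⟩
  have hC1 : ((2 * N0 + 2 : ℕ) : ℝ) ≤ C := by
    rw [hC]
    exact le_max_left _ _
  have hC2 : 2 ≤ C * ((2 : ℝ) ^ ε - 1) := by
    have h3 : 2 / ((2 : ℝ) ^ ε - 1) ≤ C := by
      rw [hC]
      exact le_max_right _ _
    rwa [div_le_iff₀ (by linarith)] at h3
  have hC0 : 0 ≤ C := le_trans (Nat.cast_nonneg _) hC1
  refine ⟨C, fun N => ?_⟩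
  induction N using Nat.strong_induction_on with
  | _ N ih =>
    intro hN
    have hN1 : (1 : ℝ) ≤ (N : ℝ) := by exact_mod_cast hN
    have hNe : 1 ≤ (N : ℝ) ^ ε := Real.one_le_rpow hN1 hε.le
    by_cases hsm : N < 2 * N0 + 2
    · have h3 : #((Icc 1 N).filter P) ≤ 2 * N0 + 2 := by
        refine (card_filter_le _ _).trans ?_
        rw [Nat.card_Icc]
        omega
      calc (#((Icc 1 N).filter P) : ℝ) ≤ ((2 * N0 + 2 : ℕ) : ℝ) := by exact_mod_cast h3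
        _ ≤ C := hC1
        _ ≤ C * (N : ℝ) ^ ε := le_mul_of_one_le_right hC0 hNe
    · obtain ⟨M, hM⟩ : ∃ M, M = N / 2 := ⟨_, rfl⟩
      have hM1 : 1 ≤ M := by omega
      have h3 : (Icc 1 N).filter P ⊆
          ((Icc 1 M).filter P ∪ (Ioc M (2 * M)).filter P) ∪ {N} := by
        intro x hx
        rw [mem_filter, mem_Icc] at hx
        rw [mem_union, mem_union, mem_filter, mem_filter, mem_Icc, mem_Ioc, mem_singleton]
        by_cases h4 : x ≤ M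
        · exact Or.inl (Or.inl ⟨⟨hx.1.1, h4⟩, hx.2⟩)
        · by_cases h5 : x ≤ 2 * M
          · exact Or.inl (Or.inr ⟨⟨by omega, h5⟩, hx.2⟩)
          · exact Or.inr (by omega)
      have h4 : #((Icc 1 N).filter P) ≤
          #((Icc 1 M).filter P) + #((Ioc M (2 * M)).filter P) + 1 := by
        refine (card_le_card h3).trans ((card_union_le _ _).trans ?_)
        rw [card_singleton]
        exact Nat.add_le_add_right (card_union_le _ _) 1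
      have h5 := ih M (by omega) hM1
      have h6 := hb M (by omega)
      have hMN : (M : ℝ) ≤ (N : ℝ) / 2 := by
        have : 2 * M ≤ N := by omega
        have h7 : (2 : ℝ) * M ≤ N := by exact_mod_cast this
        linarith
      have hMr : (1 : ℝ) ≤ (M : ℝ) := by exact_mod_cast hM1
      have h7 : (M : ℝ) ^ ε ≤ ((N : ℝ) / 2) ^ ε :=
        Real.rpow_le_rpow (by linarith) hMN hε.le
      have h8 : 1 ≤ ((N : ℝ) / 2) ^ ε := Real.one_le_rpow (by linarith) hε.le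
      have h9 : ((N : ℝ) / 2) ^ ε = (N : ℝ) ^ ε / (2 : ℝ) ^ ε :=
        Real.div_rpow (by linarith) (by norm_num) _
      have h10 : (#((Icc 1 N).filter P) : ℝ) ≤
          #((Icc 1 M).filter P) + #((Ioc M (2 * M)).filter P) + 1 := by exact_mod_cast h4
      have h11 : C * (M : ℝ) ^ ε ≤ C * ((N : ℝ) / 2) ^ ε := mul_le_mul_of_nonneg_left h7 hC0
      have h12 : (#((Icc 1 N).filter P) : ℝ) ≤ (C + 2) * ((N : ℝ) / 2) ^ ε := by
        linarith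
      refine h12.trans ?_
      have h13 : (C + 2) ≤ C * (2 : ℝ) ^ ε := by linarith
      have h14 : (N : ℝ) ^ ε = (2 : ℝ) ^ ε * ((N : ℝ) / 2) ^ ε := by
        rw [h9]
        field_simp
      rw [h14, ← mul_assoc]
      exact mul_le_mul_of_nonneg_right h13 (by linarith)

/-- windows are finite -/
theorem Fin_fin (m : ℕ) (t : ℝ) (Q : ℕ → Prop) :
    {z : ℕ | m ^ 2 < z ∧ (z : ℝ) ≤ (m : ℝ) ^ 2 + t ∧ Q z}.Finite := by
  refine (Set.finite_Icc 0 ⌊(m : ℝ) ^ 2 + t⌋₊).subset ?_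
  rintro z ⟨-, h2, -⟩
  exact ⟨Nat.zero_le _, Nat.le_floor h2⟩

theorem few_windows (δ ε : ℝ) (hδ : 0 ≤ δ) (h : 10 * δ < ε) : ∃ C : ℝ, ∀ N : ℕ, 1 ≤ N →
    ({m : ℕ | 1 ≤ m ∧ m ≤ N ∧
      ¬ ((m : ℝ) ^ (1 - ε) ≤ ({z : ℕ | m ^ 2 < z ∧ (z : ℝ) ≤ (m : ℝ) ^ 2 + (m : ℝ) ^ (1 - δ) ∧
            Even (ArithmeticFunction.cardFactors z)}.ncard : ℝ) ∧
        (m : ℝ) ^ (1 - ε) ≤ ({z : ℕ | m ^ 2 < z ∧ (z : ℝ) ≤ (m : ℝ) ^ 2 + (m : ℝ) ^ (1 - δ) ∧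
            Odd (ArithmeticFunction.cardFactors z)}.ncard : ℝ))}.ncard : ℝ) ≤
      C * (N : ℝ) ^ ε := by
  classical
  obtain ⟨P, hP⟩ : ∃ P : ℕ → Prop, P = fun m : ℕ =>
      ¬ ((m : ℝ) ^ (1 - ε) ≤ ({z : ℕ | m ^ 2 < z ∧ (z : ℝ) ≤ (m : ℝ) ^ 2 + (m : ℝ) ^ (1 - δ) ∧
            Even (ArithmeticFunction.cardFactors z)}.ncard : ℝ) ∧
        (m : ℝ) ^ (1 - ε) ≤ ({z : ℕ | m ^ 2 < z ∧ (z : ℝ) ≤ (m : ℝ) ^ 2 + (m : ℝ) ^ (1 - δ) ∧
            Odd (ArithmeticFunction.cardFactors z)}.ncard : ℝ)) := ⟨_, rfl⟩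
  have hset : ∀ N : ℕ, {m : ℕ | 1 ≤ m ∧ m ≤ N ∧
      ¬ ((m : ℝ) ^ (1 - ε) ≤ ({z : ℕ | m ^ 2 < z ∧ (z : ℝ) ≤ (m : ℝ) ^ 2 + (m : ℝ) ^ (1 - δ) ∧
            Even (ArithmeticFunction.cardFactors z)}.ncard : ℝ) ∧
        (m : ℝ) ^ (1 - ε) ≤ ({z : ℕ | m ^ 2 < z ∧ (z : ℝ) ≤ (m : ℝ) ^ 2 + (m : ℝ) ^ (1 - δ) ∧
            Odd (ArithmeticFunction.cardFactors z)}.ncard : ℝ))}.ncard =
      #((Icc 1 N).filter P) := by
    intro N
    rw [← Set.ncard_coe_finset]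
    congr 1
    ext m
    rw [mem_coe, mem_filter, mem_Icc, and_assoc, hP]
    rfl
  suffices hmain : ∃ C : ℝ, ∀ N : ℕ, 1 ≤ N → (#((Icc 1 N).filter P) : ℝ) ≤ C * (N : ℝ) ^ ε by
    obtain ⟨C, hC⟩ := hmain
    refine ⟨C, fun N hN => ?_⟩
    rw [hset]
    exact hC N hN
  have hε0 : 0 < ε := by linarith
  rcases lt_or_ge 1 ε with hε1 | hε1
  · refine ⟨1, fun N hN => ?_⟩
    have hN1 : (1 : ℝ) ≤ (N : ℝ) := by exact_mod_cast hN
    have h1 : #((Icc 1 N).filter P) ≤ N := by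
      refine (card_filter_le _ _).trans ?_
      rw [Nat.card_Icc]
      omega
    calc (#((Icc 1 N).filter P) : ℝ) ≤ (N : ℝ) := by exact_mod_cast h1
      _ = (N : ℝ) ^ (1 : ℝ) := (Real.rpow_one _).symm
      _ ≤ (N : ℝ) ^ ε := Real.rpow_le_rpow_of_exponent_le hN1 hε1.le
      _ = 1 * (N : ℝ) ^ ε := (one_mul _).symm
  · obtain ⟨N0, hN0⟩ := block δ ε hδ h hε1
    refine Fin_dyad P hε0 N0 fun M hM => ?_
    refine hN0 M hM _ (fun m hm => ?_) (fun m hm => ?_)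
    · rw [mem_filter, mem_Ioc] at hm
      exact hm.1
    · rw [mem_filter, mem_Ioc, hP] at hm
      obtain ⟨⟨hm1, hm2⟩, hm3⟩ := hm
      have hMm : (M : ℝ) ≤ (m : ℝ) := by exact_mod_cast hm1.le
      have hm2' : (m : ℝ) ≤ 2 * (M : ℝ) := by exact_mod_cast hm2
      have hM0 : (0 : ℝ) ≤ (M : ℝ) := Nat.cast_nonneg M
      have hw : (M : ℝ) ^ (1 - δ) ≤ (m : ℝ) ^ (1 - δ) :=
        Real.rpow_le_rpow hM0 hMm (by linarith)
      have hv : (m : ℝ) ^ (1 - ε) ≤ 2 * (M : ℝ) ^ (1 - ε) := by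
        calc (m : ℝ) ^ (1 - ε) ≤ (2 * (M : ℝ)) ^ (1 - ε) :=
              Real.rpow_le_rpow (by linarith) hm2' (by linarith)
          _ = (2 : ℝ) ^ (1 - ε) * (M : ℝ) ^ (1 - ε) := Real.mul_rpow (by norm_num) hM0
          _ ≤ (2 : ℝ) ^ (1 : ℝ) * (M : ℝ) ^ (1 - ε) :=
              mul_le_mul_of_nonneg_right
                (Real.rpow_le_rpow_of_exponent_le (by norm_num) (by linarith))
                (Real.rpow_nonneg hM0 _)
          _ = 2 * (M : ℝ) ^ (1 - ε) := by rw [Real.rpow_one]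
      rw [not_and_or] at hm3
      rcases hm3 with hm3 | hm3
      · refine ⟨-1, ?_⟩
        have h1 : {z : ℕ | m ^ 2 < z ∧ (z : ℝ) ≤ (m : ℝ) ^ 2 + (M : ℝ) ^ (1 - δ) ∧
            lam z ≠ -1} ⊆ {z : ℕ | m ^ 2 < z ∧ (z : ℝ) ≤ (m : ℝ) ^ 2 + (m : ℝ) ^ (1 - δ) ∧
            Even (ArithmeticFunction.cardFactors z)} := by
          rintro z ⟨z1, z2, z3⟩
          refine ⟨z1, by linarith, ?_⟩
          by_contra hcon
          rw [Nat.not_even_iff_odd] at hcon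
          exact z3 hcon.neg_one_pow
        have h2 := Set.ncard_le_ncard h1 (Fin_fin m _ _)
        have h3 : (({z : ℕ | m ^ 2 < z ∧ (z : ℝ) ≤ (m : ℝ) ^ 2 + (M : ℝ) ^ (1 - δ) ∧
            lam z ≠ -1}.ncard : ℕ) : ℝ) ≤
            (({z : ℕ | m ^ 2 < z ∧ (z : ℝ) ≤ (m : ℝ) ^ 2 + (m : ℝ) ^ (1 - δ) ∧
            Even (ArithmeticFunction.cardFactors z)}.ncard : ℕ) : ℝ) := by exact_mod_cast h2
        push Not at hm3
        exact h3.trans (hm3.le.trans hv)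
      · refine ⟨1, ?_⟩
        have h1 : {z : ℕ | m ^ 2 < z ∧ (z : ℝ) ≤ (m : ℝ) ^ 2 + (M : ℝ) ^ (1 - δ) ∧
            lam z ≠ 1} ⊆ {z : ℕ | m ^ 2 < z ∧ (z : ℝ) ≤ (m : ℝ) ^ 2 + (m : ℝ) ^ (1 - δ) ∧
            Odd (ArithmeticFunction.cardFactors z)} := by
          rintro z ⟨z1, z2, z3⟩
          refine ⟨z1, by linarith, ?_⟩
          by_contra hcon
          rw [Nat.not_odd_iff_even] at hcon
          exact z3 hcon.neg_one_pow
        have h2 := Set.ncard_le_ncard h1 (Fin_fin m _ _)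
        have h3 : (({z : ℕ | m ^ 2 < z ∧ (z : ℝ) ≤ (m : ℝ) ^ 2 + (M : ℝ) ^ (1 - δ) ∧
            lam z ≠ 1}.ncard : ℕ) : ℝ) ≤
            (({z : ℕ | m ^ 2 < z ∧ (z : ℝ) ≤ (m : ℝ) ^ 2 + (m : ℝ) ^ (1 - δ) ∧
            Odd (ArithmeticFunction.cardFactors z)}.ncard : ℕ) : ℝ) := by exact_mod_cast h2
        push Not at hm3
        exact h3.trans (hm3.le.trans hv)

end Pool.Agent.Helper26.QS
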