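import Pool.Agent.Helper26.QS.Defs

/-!
# QS-Int: mean square of the exponential sum over the squares

PROOF.  Expand: `∑ m, m' ∈ B, ∫ ee (j (m ^ 2 - m' ^ 2) v)`.  Diagonal: `3 V` each.  `m ≠ m'`: at most `1 / (π |D|)`,
`|D| = j |m - m'| (m + m') ≥ 2 N |m - m'|`; for given `m` and `i ≥ 1` at most two `m'` with `|m - m'| = i < N`, so the sum over `m'` is
at most `2 / (2 π N) ∑ i ≤ N, 1 / i ≤ (1 + log N) / N`.
-/

set_option autoImplicit false

namespace Pool.Agent.Helper26.QS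

open Finset MeasureTheory
open Pool.Agent.Helper68.CO2 (lam)

theorem int_normsq (B : Finset ℕ) (j : ℕ) (v : ℝ) :
    ‖∑ m ∈ B, ee (j * (m : ℝ) ^ 2 * v)‖ ^ 2 =
      ∑ m ∈ B, ∑ m' ∈ B,
        Real.cos ((2 * Real.pi * ((j : ℝ) * ((m : ℝ) ^ 2 - (m' : ℝ) ^ 2))) * v) := by
  rw [Complex.sq_norm, Complex.normSq_apply, Complex.re_sum, Complex.im_sum, sum_mul_sum,
    sum_mul_sum, ← sum_add_distrib]
  refine sum_congr rfl fun m _ => ?_
  rw [← sum_add_distrib]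
  refine sum_congr rfl fun m' _ => ?_
  unfold ee
  rw [Complex.exp_ofReal_mul_I_re, Complex.exp_ofReal_mul_I_re, Complex.exp_ofReal_mul_I_im,
    Complex.exp_ofReal_mul_I_im, ← Real.cos_sub]
  congr 1
  ring

theorem int_cos (c a b : ℝ) (hc : c ≠ 0) : |∫ v in a..b, Real.cos (c * v)| ≤ 2 / |c| := by
  rw [intervalIntegral.integral_comp_mul_left (fun x => Real.cos x) hc, integral_cos, smul_eq_mul,
    abs_mul, abs_inv, div_eq_inv_mul]
  apply mul_le_mul_of_nonneg_left _ (by positivity)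
  have h1 := Real.abs_sin_le_one (c * b)
  have h2 := Real.abs_sin_le_one (c * a)
  calc |Real.sin (c * b) - Real.sin (c * a)| ≤ |Real.sin (c * b)| + |Real.sin (c * a)| :=
        abs_sub _ _
    _ ≤ 2 := by linarith

theorem int_harm (N : ℕ) : ∑ i ∈ Icc 1 N, (1 : ℝ) / i ≤ 1 + Real.log N := by
  have h1 := harmonic_le_one_add_log N
  have h2 : ((harmonic N : ℚ) : ℝ) = ∑ i ∈ Icc 1 N, (1 : ℝ) / i := by
    rw [harmonic_eq_sum_Icc]
    push_cast
    exact sum_congr rfl fun i _ => by rw [one_div]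
  rw [← h2]
  exact h1

theorem int_sum {N : ℕ} {B : Finset ℕ} (hB : ∀ m ∈ B, N < m ∧ m ≤ 2 * N) {m : ℕ}
    (hm : m ∈ B) :
    ∑ m' ∈ B.erase m, 1 / |(m : ℝ) - m'| ≤ 2 * (1 + Real.log N) := by
  obtain ⟨hm1, hm2⟩ := hB m hm
  have hside : ∀ S : Finset ℕ, S ⊆ B.erase m → (∀ x ∈ S, ∀ y ∈ S,
      ((m : ℤ) - x).natAbs = ((m : ℤ) - y).natAbs → x = y) →
      ∑ m' ∈ S, 1 / |(m : ℝ) - m'| ≤ 1 + Real.log N := by
    intro S hS hinj
    have h1 : ∑ m' ∈ S, 1 / |(m : ℝ) - m'| =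
        ∑ i ∈ S.image (fun x : ℕ => ((m : ℤ) - x).natAbs), (1 : ℝ) / i := by
      rw [sum_image (fun x hx y hy hxy => hinj x hx y hy hxy)]
      refine sum_congr rfl fun x _ => ?_
      congr 1
      rw [Nat.cast_natAbs]
      push_cast
      rfl
    rw [h1]
    refine le_trans (sum_le_sum_of_subset_of_nonneg ?_ fun i _ _ => by positivity) (int_harm N)
    intro i hi
    obtain ⟨x, hx, rfl⟩ := mem_image.1 hi
    have hx1 := mem_erase.1 (hS hx)
    obtain ⟨hx2, hx3⟩ := hB x hx1.2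
    rw [mem_Icc]
    have := hx1.1
    omega
  rw [← sum_filter_add_sum_filter_not (B.erase m) (fun x => x < m)]
  have h1 := hside ((B.erase m).filter (fun x => x < m)) (filter_subset _ _) (by
    intro x hx y hy hxy
    have h1 := (mem_filter.1 hx).2
    have h2 := (mem_filter.1 hy).2
    omega)
  have h2 := hside ((B.erase m).filter (fun x => ¬ x < m)) (filter_subset _ _) (by
    intro x hx y hy hxy
    have h1 := (mem_filter.1 hx).2
    have h2 := (mem_filter.1 hy).2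
    omega)
  linarith

theorem int_sq {N : ℕ} (hN : 0 < N) {B : Finset ℕ} (hB : ∀ m ∈ B, N < m ∧ m ≤ 2 * N) {j : ℕ}
    (hj : 0 < j) {V : ℝ} (hV : 0 < V) :
    ∫ v in V..(4 * V), ‖∑ m ∈ B, ee (j * (m : ℝ) ^ 2 * v)‖ ^ 2 ≤
      #B * (3 * V + (1 + Real.log N) / N) := by
  have hN0 : (0 : ℝ) < N := by exact_mod_cast hN
  have hj1 : (1 : ℝ) ≤ j := by exact_mod_cast hj
  have hpi := Real.pi_gt_three
  have hint : ∀ c : ℝ, IntervalIntegrable (fun v : ℝ => Real.cos (c * v)) volume V (4 * V) :=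
    fun c => (by fun_prop : Continuous fun v : ℝ => Real.cos (c * v)).intervalIntegrable _ _
  have h0 : ∫ v in V..(4 * V), ‖∑ m ∈ B, ee (j * (m : ℝ) ^ 2 * v)‖ ^ 2 =
      ∑ m ∈ B, ∑ m' ∈ B, ∫ v in V..(4 * V),
        Real.cos ((2 * Real.pi * ((j : ℝ) * ((m : ℝ) ^ 2 - (m' : ℝ) ^ 2))) * v) := by
    simp only [int_normsq]
    rw [intervalIntegral.integral_finsetSum]
    · refine sum_congr rfl fun m _ => ?_
      rw [intervalIntegral.integral_finsetSum]
      exact fun m' _ => hint _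
    · intro m _
      exact (by fun_prop : Continuous fun v : ℝ => ∑ m' ∈ B,
        Real.cos ((2 * Real.pi * ((j : ℝ) * ((m : ℝ) ^ 2 - (m' : ℝ) ^ 2))) * v)).intervalIntegrable
          _ _
  rw [h0, ← nsmul_eq_mul, ← sum_const]
  refine sum_le_sum fun m hm => ?_
  obtain ⟨hm1, hm2⟩ := hB m hm
  have hm1' : (N : ℝ) < m := by exact_mod_cast hm1
  rw [← add_sum_erase B _ hm]
  have hdiag : ∫ v in V..(4 * V),
      Real.cos ((2 * Real.pi * ((j : ℝ) * ((m : ℝ) ^ 2 - (m : ℝ) ^ 2))) * v) = 3 * V := by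
    have : ∀ v : ℝ, Real.cos ((2 * Real.pi * ((j : ℝ) * ((m : ℝ) ^ 2 - (m : ℝ) ^ 2))) * v) = 1 := by
      intro v
      rw [sub_self, mul_zero, mul_zero, zero_mul, Real.cos_zero]
    simp only [this]
    rw [intervalIntegral.integral_const, smul_eq_mul, mul_one]
    ring
  rw [hdiag]
  have hoff : ∀ m' ∈ B.erase m, ∫ v in V..(4 * V),
      Real.cos ((2 * Real.pi * ((j : ℝ) * ((m : ℝ) ^ 2 - (m' : ℝ) ^ 2))) * v) ≤
        1 / (2 * N) * (1 / |(m : ℝ) - m'|) := by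
    intro m' hm'
    obtain ⟨hne, hm'B⟩ := mem_erase.1 hm'
    obtain ⟨h1, h2⟩ := hB m' hm'B
    have h1' : (N : ℝ) < m' := by exact_mod_cast h1
    have hne' : (m : ℝ) - m' ≠ 0 := by
      rw [sub_ne_zero]
      exact_mod_cast Ne.symm hne
    have hd : 0 < |(m : ℝ) - m'| := abs_pos.2 hne'
    have hfac : (m : ℝ) ^ 2 - (m' : ℝ) ^ 2 = ((m : ℝ) - m') * ((m : ℝ) + m') := by ring
    have hc0 : (2 * Real.pi * ((j : ℝ) * ((m : ℝ) ^ 2 - (m' : ℝ) ^ 2))) ≠ 0 := by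
      rw [hfac]
      exact mul_ne_zero (mul_ne_zero two_ne_zero Real.pi_ne_zero)
        (mul_ne_zero (by linarith) (mul_ne_zero hne' (by linarith)))
    refine (le_abs_self _).trans ((int_cos _ _ _ hc0).trans ?_)
    have habs : |2 * Real.pi * ((j : ℝ) * ((m : ℝ) ^ 2 - (m' : ℝ) ^ 2))| =
        2 * Real.pi * (j * (|(m : ℝ) - m'| * ((m : ℝ) + m'))) := by
      rw [hfac, abs_mul, abs_mul, abs_mul, abs_mul, abs_of_pos Real.pi_pos,
        abs_of_pos (by linarith : (0 : ℝ) < j), abs_of_pos (by linarith : (0 : ℝ) < (m : ℝ) + m')]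
      norm_num
    rw [habs]
    have hlow : 2 * (2 * N * |(m : ℝ) - m'|) ≤
        2 * Real.pi * (j * (|(m : ℝ) - m'| * ((m : ℝ) + m'))) := by
      have h3 : 2 * N * |(m : ℝ) - m'| ≤ |(m : ℝ) - m'| * ((m : ℝ) + m') := by nlinarith
      have h4 : |(m : ℝ) - m'| * ((m : ℝ) + m') ≤ j * (|(m : ℝ) - m'| * ((m : ℝ) + m')) :=
        le_mul_of_one_le_left (by positivity) hj1
      have h5 : 0 ≤ j * (|(m : ℝ) - m'| * ((m : ℝ) + m')) := by positivity
      nlinarith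
    calc 2 / (2 * Real.pi * (j * (|(m : ℝ) - m'| * ((m : ℝ) + m')))) ≤
          2 / (2 * (2 * N * |(m : ℝ) - m'|)) :=
          div_le_div_of_nonneg_left (by norm_num) (by positivity) hlow
      _ = 1 / (2 * N) * (1 / |(m : ℝ) - m'|) := by
          field_simp
  have hsum : ∑ m' ∈ B.erase m, ∫ v in V..(4 * V),
      Real.cos ((2 * Real.pi * ((j : ℝ) * ((m : ℝ) ^ 2 - (m' : ℝ) ^ 2))) * v) ≤
      1 / (2 * N) * (2 * (1 + Real.log N)) := by
    calc _ ≤ ∑ m' ∈ B.erase m, 1 / (2 * (N : ℝ)) * (1 / |(m : ℝ) - m'|) := sum_le_sum hoff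
      _ = 1 / (2 * N) * ∑ m' ∈ B.erase m, (1 / |(m : ℝ) - m'|) := by rw [mul_sum]
      _ ≤ _ := mul_le_mul_of_nonneg_left (int_sum hB hm) (by positivity)
  have hfin : 1 / (2 * (N : ℝ)) * (2 * (1 + Real.log N)) = (1 + Real.log N) / N := by
    field_simp
  linarith

end Pool.Agent.Helper26.QS
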