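import Pool.Agent.Helper26.QS.Defs

/-!
# QS-Inv: inversion

PROOF.  The set is the image of `s ∩ Icc (1 / (4 Y)) (1 / Y)` under `v ↦ v⁻¹`, which is Lipschitz there with constant `16 Y ^ 2`
(`LipschitzOnWith.hausdorffMeasure_image_le` with `hausdorffMeasure_real`, or another lemma on images).
-/

set_option autoImplicit false

namespace Pool.Agent.Helper26.QS

open Finset MeasureTheory
open Pool.Agent.Helper68.CO2 (lam)

theorem vol_inv {Y : ℝ} (hY : 0 < Y) (s : Set ℝ) :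
    volume {y : ℝ | y ∈ Set.Icc Y (4 * Y) ∧ y⁻¹ ∈ s} ≤
      ENNReal.ofReal (16 * Y ^ 2) *
        volume {v : ℝ | v ∈ Set.Icc (1 / (4 * Y)) (4 * (1 / (4 * Y))) ∧ v ∈ s} := by
  obtain ⟨t, ht⟩ : ∃ t : Set ℝ,
    t = {v : ℝ | v ∈ Set.Icc (1 / (4 * Y)) (4 * (1 / (4 * Y))) ∧ v ∈ s} := ⟨_, rfl⟩
  rw [← ht]
  have hsub : {y : ℝ | y ∈ Set.Icc Y (4 * Y) ∧ y⁻¹ ∈ s} ⊆ (fun v : ℝ => v⁻¹) '' t := by
    rintro y ⟨⟨h1, h2⟩, h3⟩
    have hy : 0 < y := lt_of_lt_of_le hY h1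
    refine ⟨y⁻¹, ?_, inv_inv y⟩
    rw [ht]
    refine ⟨⟨?_, ?_⟩, h3⟩
    · rw [one_div]
      exact inv_anti₀ hy h2
    · have h4 : 4 * (1 / (4 * Y)) = Y⁻¹ := by
        field_simp
      rw [h4]
      exact inv_anti₀ hY h1
  have hlip : LipschitzOnWith (Real.toNNReal (16 * Y ^ 2)) (fun v : ℝ => v⁻¹) t := by
    refine LipschitzOnWith.of_dist_le_mul ?_
    intro v hv w hw
    rw [ht] at hv hw
    obtain ⟨⟨hv1, -⟩, -⟩ := hv
    obtain ⟨⟨hw1, -⟩, -⟩ := hw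
    have h0 : (0 : ℝ) < 1 / (4 * Y) := by positivity
    have hv0 : 0 < v := lt_of_lt_of_le h0 hv1
    have hw0 : 0 < w := lt_of_lt_of_le h0 hw1
    rw [Real.coe_toNNReal _ (by positivity), Real.dist_eq, Real.dist_eq]
    have h1 : v⁻¹ - w⁻¹ = (w - v) * (v⁻¹ * w⁻¹) := by
      field_simp
    have h2 : v⁻¹ ≤ 4 * Y := by
      have := inv_anti₀ h0 hv1
      rwa [one_div, inv_inv] at this
    have h3 : w⁻¹ ≤ 4 * Y := by
      have := inv_anti₀ h0 hw1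
      rwa [one_div, inv_inv] at this
    have h4 : v⁻¹ * w⁻¹ ≤ 16 * Y ^ 2 := by
      calc v⁻¹ * w⁻¹ ≤ (4 * Y) * (4 * Y) :=
            mul_le_mul h2 h3 (inv_nonneg.2 hw0.le) (by positivity)
        _ = 16 * Y ^ 2 := by ring
    rw [h1, abs_mul, abs_sub_comm w v, abs_of_pos (show 0 < v⁻¹ * w⁻¹ by positivity), mul_comm]
    exact mul_le_mul_of_nonneg_right h4 (abs_nonneg _)
  have hH := hlip.hausdorffMeasure_image_le (d := 1) zero_le_one
  rw [hausdorffMeasure_real, ENNReal.rpow_one] at hH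
  exact (measure_mono hsub).trans hH

end Pool.Agent.Helper26.QS
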