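import Pool.Agent.Helper26.QS.Defs

/-!
# QS-Ker: the Fejer kernel

PROOF.  `K t = |∑ j < J, ee (j t)| ^ 2 / J = ∑ |j| < J, (1 - |j| / J) ee (j t)`, `t = m ^ 2 v - ρ / 2`.  The distance of `t` to the
integers is `≥ ρ / 2`, so `|∑ j < J, ee (j t)| ≤ 1 / |sin (π t)| ≤ 1 / ρ` (`|sin (π t)| ≥ 2 ‖t‖`) and `K t ≤ 1 / (J ρ ^ 2) ≤ 1 / 2`.  So
`#B / 2 ≥ ∑ m, K = #B + 2 Re ∑ 0 < j < J, (1 - j / J) ee (- j ρ / 2) S_j`, `S_j = ∑ m ∈ B, ee (j m ^ 2 v)`, hence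
`#B ≤ 4 ∑ 0 < j < J, |S_j|`; Cauchy-Schwarz.
-/

set_option autoImplicit false

namespace Pool.Agent.Helper26.QS

open Finset MeasureTheory
open Pool.Agent.Helper68.CO2 (lam)

private theorem Ker_add (a b : ℝ) : ee (a + b) = ee a * ee b := by
  unfold ee
  rw [← Complex.exp_add]
  congr 1
  push_cast
  ring

private theorem Ker_pow (a : ℝ) (h : ℕ) : ee a ^ h = ee (h * a) := by
  unfold ee
  rw [← Complex.exp_nat_mul]
  congr 1
  push_cast
  ring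

private theorem Ker_norm (a : ℝ) : ‖ee a‖ = 1 := by
  unfold ee
  exact Complex.norm_exp_ofReal_mul_I _

private theorem Ker_sub_one (a : ℝ) : ‖ee a - 1‖ = 2 * |Real.sin (Real.pi * a)| := by
  unfold ee
  rw [mul_comm, Complex.norm_exp_I_mul_ofReal_sub_one,
    show 2 * Real.pi * a / 2 = Real.pi * a by ring, Real.norm_eq_abs, abs_mul, abs_two]

private theorem Ker_sin {x ρ : ℝ} (hρ : 0 < ρ) (hx : ρ ≤ Int.fract x) :
    ρ ≤ |Real.sin (Real.pi * (x - ρ / 2))| := by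
  obtain ⟨s, hs⟩ : ∃ s : ℝ, s = Int.fract x - ρ / 2 := ⟨_, rfl⟩
  have h1 : Real.pi * (x - ρ / 2) = Real.pi * s + (⌊x⌋ : ℝ) * Real.pi := by
    rw [hs, Int.fract]
    ring
  rw [h1, Real.sin_add_int_mul_pi, abs_mul, abs_zpow, abs_neg, abs_one, one_zpow, one_mul]
  have hs1 : ρ / 2 ≤ s := by
    rw [hs]
    linarith
  have hs2 : s ≤ 1 - ρ / 2 := by
    rw [hs]
    linarith [Int.fract_lt_one x]
  have key : ∀ u : ℝ, 0 ≤ u → u ≤ 1 / 2 → 2 * u ≤ |Real.sin (Real.pi * u)| := by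
    intro u h0 h2
    have h3 : |Real.pi * u| = Real.pi * u := abs_of_nonneg (mul_nonneg Real.pi_pos.le h0)
    have h4 : |Real.pi * u| ≤ Real.pi / 2 := by
      rw [h3]
      nlinarith [Real.pi_pos]
    have h5 := Real.mul_abs_le_abs_sin h4
    rw [h3] at h5
    have h6 : 2 / Real.pi * (Real.pi * u) = 2 * u := by
      field_simp
    rw [h6] at h5
    exact h5
  rcases le_total s (1 / 2) with h | h
  · have := key s (by linarith) h
    linarith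
  · have h7 := key (1 - s) (by linarith) (by linarith)
    have h8 : Real.sin (Real.pi * (1 - s)) = Real.sin (Real.pi * s) := by
      rw [← Real.sin_pi_sub]
      congr 1
      ring
    rw [h8] at h7
    linarith

/-- the Fejer kernel as a sum -/
private theorem Ker_fejer {z : ℂ} (hz : ‖z‖ = 1) (J : ℕ) :
    ‖∑ j ∈ range J, z ^ j‖ ^ 2 = J + 2 * ∑ i ∈ range J, (∑ h ∈ Ico 1 (i + 1), z ^ h).re := by
  have hzz : z * (starRingEnd ℂ) z = 1 := by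
    rw [Complex.mul_conj, Complex.normSq_eq_norm_sq, hz]
    norm_num
  induction J with
  | zero => simp
  | succ J ih =>
    rw [sum_range_succ, sum_range_succ (fun i => (∑ h ∈ Ico 1 (i + 1), z ^ h).re)]
    have h1 : ‖(∑ j ∈ range J, z ^ j) + z ^ J‖ ^ 2 = ‖∑ j ∈ range J, z ^ j‖ ^ 2 + 1 +
        2 * ((z ^ J * (starRingEnd ℂ) (∑ j ∈ range J, z ^ j))).re := by
      rw [← Complex.normSq_eq_norm_sq, ← Complex.normSq_eq_norm_sq, add_comm, Complex.normSq_add]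
      have h2 : Complex.normSq (z ^ J) = 1 := by
        rw [Complex.normSq_eq_norm_sq, norm_pow, hz]
        norm_num
      rw [h2]
      ring
    have h3 : z ^ J * (starRingEnd ℂ) (∑ j ∈ range J, z ^ j) = ∑ h ∈ Ico 1 (J + 1), z ^ h := by
      rw [map_sum, mul_sum]
      have h4 : ∀ j ∈ range J, z ^ J * (starRingEnd ℂ) (z ^ j) = z ^ (J - j) := by
        intro j hj
        have h5 : J = (J - j) + j := by
          have := mem_range.1 hj
          omega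
        conv_lhs => rw [h5]
        rw [pow_add, mul_assoc, map_pow, ← mul_pow, hzz, one_pow, mul_one]
      rw [sum_congr rfl h4]
      rw [sum_Ico_eq_sum_range, Nat.add_sub_cancel, ← sum_range_reflect (fun i => z ^ (1 + i)) J]
      refine sum_congr rfl fun j hj => ?_
      congr 1
      have := mem_range.1 hj
      omega
    rw [h1, h3, ih]
    push_cast
    ring

theorem ker {J : ℕ} {ρ : ℝ} (hρ : 0 < ρ) (hρ1 : ρ ≤ 1) (hJ : 2 ≤ J * ρ ^ 2) {B : Finset ℕ} {v : ℝ}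
    (hbad : ∀ m ∈ B, ρ ≤ Int.fract ((m : ℝ) ^ 2 * v)) :
    (#B : ℝ) ^ 2 ≤ 16 * J * ∑ j ∈ Ico 1 J, ‖∑ m ∈ B, ee (j * (m : ℝ) ^ 2 * v)‖ ^ 2 := by
  have hJ0 : (0 : ℝ) < J := by
    by_contra hcon
    push Not at hcon
    nlinarith [sq_nonneg ρ, Nat.cast_nonneg (α := ℝ) J]
  obtain ⟨z, hz⟩ : ∃ z : ℕ → ℂ, z = fun m : ℕ => ee ((m : ℝ) ^ 2 * v - ρ / 2) := ⟨_, rfl⟩
  have hz1 : ∀ m, ‖z m‖ = 1 := fun m => by rw [hz]; exact Ker_norm _
  -- upper bound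
  have hup : ∀ m ∈ B, ‖∑ j ∈ range J, z m ^ j‖ ^ 2 ≤ J / 2 := by
    intro m hm
    have h1 := Ker_sin hρ (hbad m hm)
    have h2 : ‖∑ j ∈ range J, z m ^ j‖ * ‖z m - 1‖ ≤ 2 := by
      rw [← norm_mul, geom_sum_mul]
      refine (norm_sub_le _ _).trans ?_
      rw [norm_pow, hz1, one_pow, norm_one]
      norm_num
    have h3 : ‖z m - 1‖ = 2 * |Real.sin (Real.pi * ((m : ℝ) ^ 2 * v - ρ / 2))| := by
      rw [hz]
      exact Ker_sub_one _
    rw [h3] at h2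
    have h4 : ‖∑ j ∈ range J, z m ^ j‖ * ρ ≤ 1 := by
      have := mul_le_mul_of_nonneg_left h1 (norm_nonneg (∑ j ∈ range J, z m ^ j))
      linarith
    have h5 : ‖∑ j ∈ range J, z m ^ j‖ ^ 2 * ρ ^ 2 ≤ 1 := by
      rw [← mul_pow]
      exact pow_le_one₀ (mul_nonneg (norm_nonneg _) hρ.le) h4
    have h6 : 0 < ρ ^ 2 := by positivity
    have h7 : ‖∑ j ∈ range J, z m ^ j‖ ^ 2 * ρ ^ 2 ≤ J / 2 * ρ ^ 2 := by linarith
    exact le_of_mul_le_mul_right h7 h6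
  -- the sums
  have hT : ∀ h : ℕ, ‖∑ m ∈ B, z m ^ h‖ = ‖∑ m ∈ B, ee (h * (m : ℝ) ^ 2 * v)‖ := by
    intro h
    have h1 : ∑ m ∈ B, z m ^ h = ee (h * (-(ρ / 2))) * ∑ m ∈ B, ee (h * (m : ℝ) ^ 2 * v) := by
      rw [mul_sum]
      refine sum_congr rfl fun m _ => ?_
      rw [hz]
      show ee ((m : ℝ) ^ 2 * v - ρ / 2) ^ h = _
      rw [Ker_pow, ← Ker_add]
      congr 1
      ring
    rw [h1, norm_mul, Ker_norm, one_mul]
  obtain ⟨S, hS⟩ : ∃ s : ℝ, s = ∑ j ∈ Ico 1 J, ‖∑ m ∈ B, ee (j * (m : ℝ) ^ 2 * v)‖ := ⟨_, rfl⟩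
  have hlow : (J : ℝ) * #B - 2 * (J * S) ≤ ∑ m ∈ B, ‖∑ j ∈ range J, z m ^ j‖ ^ 2 := by
    rw [sum_congr rfl fun m _ => Ker_fejer (hz1 m) J, sum_add_distrib, sum_const, nsmul_eq_mul,
      ← mul_sum, sum_comm]
    have h1 : -((J : ℝ) * S) ≤ ∑ i ∈ range J, ∑ m ∈ B, (∑ h ∈ Ico 1 (i + 1), z m ^ h).re := by
      have h2 : ∀ i ∈ range J, -S ≤ ∑ m ∈ B, (∑ h ∈ Ico 1 (i + 1), z m ^ h).re := by
        intro i hi
        have h3 : ∑ m ∈ B, (∑ h ∈ Ico 1 (i + 1), z m ^ h).re =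
            (∑ h ∈ Ico 1 (i + 1), ∑ m ∈ B, z m ^ h).re := by
          rw [sum_comm, Complex.re_sum]
        rw [h3]
        have h4 : ‖∑ h ∈ Ico 1 (i + 1), ∑ m ∈ B, z m ^ h‖ ≤ S := by
          refine (norm_sum_le _ _).trans ?_
          rw [hS, sum_congr rfl fun h _ => hT h]
          refine sum_le_sum_of_subset_of_nonneg ?_ fun _ _ _ => norm_nonneg _
          intro h hh
          rw [mem_Ico] at hh ⊢
          have := mem_range.1 hi
          omega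
        have h5 := Complex.abs_re_le_norm (∑ h ∈ Ico 1 (i + 1), ∑ m ∈ B, z m ^ h)
        have h6 := neg_abs_le (∑ h ∈ Ico 1 (i + 1), ∑ m ∈ B, z m ^ h).re
        linarith
      calc -((J : ℝ) * S) = ∑ _i ∈ range J, -S := by
            rw [sum_const, card_range, nsmul_eq_mul]
            ring
        _ ≤ _ := sum_le_sum h2
    nlinarith
  have hup2 : ∑ m ∈ B, ‖∑ j ∈ range J, z m ^ j‖ ^ 2 ≤ #B * (J / 2) := by
    refine (sum_le_sum hup).trans ?_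
    rw [sum_const, nsmul_eq_mul]
  have h1 : (#B : ℝ) ≤ 4 * S := by
    have h2 : (J : ℝ) * #B ≤ J * (4 * S) := by nlinarith
    exact le_of_mul_le_mul_left h2 hJ0
  have hS0 : 0 ≤ S := by
    rw [hS]
    exact sum_nonneg fun _ _ => norm_nonneg _
  have h2 : S ^ 2 ≤ J * ∑ j ∈ Ico 1 J, ‖∑ m ∈ B, ee (j * (m : ℝ) ^ 2 * v)‖ ^ 2 := by
    rw [hS]
    refine (sq_sum_le_card_mul_sum_sq).trans ?_
    refine mul_le_mul_of_nonneg_right ?_ (sum_nonneg fun _ _ => by positivity)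
    rw [Nat.card_Ico]
    exact_mod_cast Nat.sub_le J 1
  calc (#B : ℝ) ^ 2 ≤ (4 * S) ^ 2 := pow_le_pow_left₀ (Nat.cast_nonneg _) h1 2
    _ = 16 * S ^ 2 := by ring
    _ ≤ _ := by linarith

end Pool.Agent.Helper26.QS
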