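import Pool.Agent.Helper26.QS.VolV
import Pool.Agent.Helper26.QS.Inv
import Pool.Agent.Helper26.QS.Exc

/-!
# QS-VolBad: volume of `Bad`

PROOF.  `Bad B A H Y ⊆ {∀ m ∈ B, ρ ≤ fract (m ^ 2 y⁻¹)} ∪ {∃ m ∈ B, floor ∈ A m}`, `ρ = H / (512 Y)`: `vol_inv` and `vol_v` with
`V = 1 / (4 Y)`, and `vol_exc`.
-/

set_option autoImplicit false

namespace Pool.Agent.Helper26.QS

open Finset MeasureTheory
open Pool.Agent.Helper68.CO2 (lam)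

theorem vol_bad {N J : ℕ} (hN : 0 < N) {B : Finset ℕ} (hB : ∀ m ∈ B, N < m ∧ m ≤ 2 * N)
    (hBne : B.Nonempty) {A : ℕ → Finset ℕ} {E : ℝ} (hE0 : 0 ≤ E) (hE : ∀ m ∈ B, (#(A m) : ℝ) ≤ E)
    {H Y : ℝ} (hH : 0 < H) (hHY : H ≤ Y) (h8 : 8 * Y ≤ (N : ℝ) ^ 2)
    (hJ : 2 ≤ J * (H / (512 * Y)) ^ 2) :
    volume (Bad B A H Y) ≤
      ENNReal.ofReal (256 * Y ^ 2 * (J : ℝ) ^ 2 * (3 / (4 * Y) + (1 + Real.log N) / N) / #B +
        64 * #B * E * Y ^ 2 / (N : ℝ) ^ 2) := by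
  have hY : 0 < Y := lt_of_lt_of_le hH hHY
  have hρ : 0 < H / (512 * Y) := by positivity
  have hρ1 : H / (512 * Y) ≤ 1 := by
    rw [div_le_one (by positivity)]
    linarith
  have hV : 0 < 1 / (4 * Y) := by positivity
  have hN1 : (1 : ℝ) ≤ N := by exact_mod_cast hN
  have hlog : 0 ≤ Real.log N := Real.log_nonneg hN1
  have hsub : Bad B A H Y ⊆
      {y : ℝ | y ∈ Set.Icc Y (4 * Y) ∧
        y⁻¹ ∈ {v : ℝ | ∀ m ∈ B, H / (512 * Y) ≤ Int.fract ((m : ℝ) ^ 2 * v)}} ∪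
      {y : ℝ | y ∈ Set.Icc Y (4 * Y) ∧ ∃ m ∈ B, ⌊(m : ℝ) ^ 2 / y⌋₊ ∈ A m} := by
    rintro y ⟨hy, hyB⟩
    by_cases h : ∃ m ∈ B, ⌊(m : ℝ) ^ 2 / y⌋₊ ∈ A m
    · exact Or.inr ⟨hy, h⟩
    · refine Or.inl ⟨hy, fun m hm => ?_⟩
      rw [← div_eq_mul_inv]
      rcases hyB m hm with h1 | h1
      · exact h1
      · exact absurd ⟨m, hm, h1⟩ h
  have h1 := vol_inv hY {v : ℝ | ∀ m ∈ B, H / (512 * Y) ≤ Int.fract ((m : ℝ) ^ 2 * v)}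
  have h2 := vol_v hN hB hBne hρ hρ1 hJ hV
  have h3 := vol_exc hN hB hE hY h8
  have h4 : ENNReal.ofReal (16 * Y ^ 2) * ENNReal.ofReal
      (16 * (J : ℝ) ^ 2 * (3 * (1 / (4 * Y)) + (1 + Real.log N) / N) / #B) =
      ENNReal.ofReal (256 * Y ^ 2 * (J : ℝ) ^ 2 * (3 / (4 * Y) + (1 + Real.log N) / N) / #B) := by
    rw [← ENNReal.ofReal_mul (by positivity)]
    congr 1
    ring
  refine (measure_mono hsub).trans ((measure_union_le _ _).trans ?_)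
  rw [ENNReal.ofReal_add (by positivity) (by positivity), ← h4]
  exact add_le_add (h1.trans (mul_le_mul_right h2 _)) h3

end Pool.Agent.Helper26.QS
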