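import Pool.Agent.Helper26.QS.Int
import Pool.Agent.Helper26.QS.Ker

/-!
# QS-VolV: volume of the bad `v`

PROOF.  Markov: on the set `(#B) ^ 2 ≤ 16 J ∑ j, |S_j v| ^ 2` (`ker`); integrate over `[V, 4 V]` (`int_sq`):
`volume * (#B) ^ 2 ≤ 16 J * J * #B (3 V + (1 + log N) / N)`.
-/

set_option autoImplicit false

namespace Pool.Agent.Helper26.QS

open Finset MeasureTheory
open Pool.Agent.Helper68.CO2 (lam)

private theorem vv_cont (B : Finset ℕ) (j : ℕ) :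
    Continuous fun v : ℝ => ‖∑ m ∈ B, ee (j * (m : ℝ) ^ 2 * v)‖ ^ 2 := by
  unfold ee
  fun_prop

theorem vol_v {N J : ℕ} {ρ V : ℝ} (hN : 0 < N) {B : Finset ℕ} (hB : ∀ m ∈ B, N < m ∧ m ≤ 2 * N)
    (hBne : B.Nonempty) (hρ : 0 < ρ) (hρ1 : ρ ≤ 1) (hJ : 2 ≤ J * ρ ^ 2) (hV : 0 < V) :
    volume {v : ℝ | v ∈ Set.Icc V (4 * V) ∧ ∀ m ∈ B, ρ ≤ Int.fract ((m : ℝ) ^ 2 * v)} ≤
      ENNReal.ofReal (16 * (J : ℝ) ^ 2 * (3 * V + (1 + Real.log N) / N) / #B) := by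
  obtain ⟨c, hc⟩ : ∃ c, c = 3 * V + (1 + Real.log N) / N := ⟨_, rfl⟩
  rw [← hc]
  have hc0 : 0 ≤ c := by
    have h1 : 0 ≤ Real.log N := Real.log_natCast_nonneg N
    rw [hc]
    positivity
  have hb : (0 : ℝ) < #B := by exact_mod_cast Finset.card_pos.2 hBne
  have hJ0 : (0 : ℝ) ≤ J := Nat.cast_nonneg J
  set f : ℝ → ℝ := fun v => 16 * J * ∑ j ∈ Ico 1 J, ‖∑ m ∈ B, ee (j * (m : ℝ) ^ 2 * v)‖ ^ 2
    with hf
  have hfc : Continuous f := by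
    rw [hf]
    exact continuous_const.mul (continuous_finsetSum _ fun j _ => vv_cont B j)
  have hf0 : ∀ v, 0 ≤ f v := by
    intro v
    rw [hf]
    positivity
  set μ : Measure ℝ := volume.restrict (Set.Icc V (4 * V)) with hμ
  have hfi : Integrable f μ := hfc.integrableOn_Icc
  have hmk := mul_meas_ge_le_integral_of_nonneg (μ := μ) (Filter.Eventually.of_forall hf0) hfi
    ((#B : ℝ) ^ 2)
  -- the integral
  have hint : ∫ v, f v ∂μ ≤ 16 * J * (J * (#B * c)) := by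
    have h1 : ∫ v, f v ∂μ = ∫ v in V..(4 * V), f v := by
      rw [intervalIntegral.integral_of_le (by linarith), hμ, integral_Icc_eq_integral_Ioc]
    have h2 : ∫ v in V..(4 * V), f v =
        16 * J * ∑ j ∈ Ico 1 J, ∫ v in V..(4 * V), ‖∑ m ∈ B, ee (j * (m : ℝ) ^ 2 * v)‖ ^ 2 := by
      rw [hf, intervalIntegral.integral_const_mul, intervalIntegral.integral_finsetSum]
      intro j _
      exact (vv_cont B j).intervalIntegrable _ _
    rw [h1, h2]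
    refine mul_le_mul_of_nonneg_left ?_ (by positivity)
    calc ∑ j ∈ Ico 1 J, ∫ v in V..(4 * V), ‖∑ m ∈ B, ee (j * (m : ℝ) ^ 2 * v)‖ ^ 2
        ≤ ∑ j ∈ Ico 1 J, (#B : ℝ) * c := by
          refine sum_le_sum fun j hj => ?_
          rw [hc]
          exact int_sq hN hB (mem_Ico.1 hj).1 hV
      _ = ((J - 1 : ℕ) : ℝ) * (#B * c) := by rw [sum_const, Nat.card_Ico, nsmul_eq_mul]
      _ ≤ J * (#B * c) := by
          refine mul_le_mul_of_nonneg_right ?_ (by positivity)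
          exact_mod_cast Nat.sub_le J 1
  have hreal : μ.real {v | (#B : ℝ) ^ 2 ≤ f v} ≤ 16 * (J : ℝ) ^ 2 * c / #B := by
    rw [le_div_iff₀ hb]
    have h3 := hmk.trans hint
    have h4 : (#B : ℝ) * (μ.real {v | (#B : ℝ) ^ 2 ≤ f v} * #B) ≤
        (#B : ℝ) * (16 * (J : ℝ) ^ 2 * c) := by
      calc (#B : ℝ) * (μ.real {v | (#B : ℝ) ^ 2 ≤ f v} * #B) =
            (#B : ℝ) ^ 2 * μ.real {v | (#B : ℝ) ^ 2 ≤ f v} := by ring
        _ ≤ _ := h3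
        _ = _ := by ring
    exact le_of_mul_le_mul_left h4 hb
  have hsub : {v : ℝ | v ∈ Set.Icc V (4 * V) ∧ ∀ m ∈ B, ρ ≤ Int.fract ((m : ℝ) ^ 2 * v)} ⊆
      {v | (#B : ℝ) ^ 2 ≤ f v} ∩ Set.Icc V (4 * V) := by
    rintro v ⟨h1, h2⟩
    exact ⟨ker hρ hρ1 hJ h2, h1⟩
  have hmeas : MeasurableSet {v | (#B : ℝ) ^ 2 ≤ f v} :=
    (isClosed_le continuous_const hfc).measurableSet
  have hfin : μ {v | (#B : ℝ) ^ 2 ≤ f v} ≠ ⊤ := by
    have h1 : μ {v | (#B : ℝ) ^ 2 ≤ f v} ≤ μ Set.univ := measure_mono (Set.subset_univ _)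
    have h2 : μ Set.univ < ⊤ := by
      rw [hμ, Measure.restrict_apply_univ]
      exact measure_Icc_lt_top
    exact (h1.trans_lt h2).ne
  calc volume {v : ℝ | v ∈ Set.Icc V (4 * V) ∧ ∀ m ∈ B, ρ ≤ Int.fract ((m : ℝ) ^ 2 * v)}
      ≤ volume ({v | (#B : ℝ) ^ 2 ≤ f v} ∩ Set.Icc V (4 * V)) := measure_mono hsub
    _ = μ {v | (#B : ℝ) ^ 2 ≤ f v} := by rw [hμ, Measure.restrict_apply hmeas]
    _ = ENNReal.ofReal (μ.real {v | (#B : ℝ) ^ 2 ≤ f v}) := (ENNReal.ofReal_toReal hfin).symm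
    _ ≤ _ := ENNReal.ofReal_le_ofReal hreal

end Pool.Agent.Helper26.QS
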